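import Pool.Agent.H767R3.DS.K

set_option autoImplicit false

namespace Pool.Agent.H767R3.DS

namespace Aaux

variable {V : Type} {X : SimpleGraph V}

theorem even_loop {u c : V} (h : X.Adj u c) : ∀ k : ℕ, ∃ w : X.Walk u u, w.length = 2 * k := by
  intro k
  induction k with
  | zero => exact ⟨SimpleGraph.Walk.nil, rfl⟩
  | succ k ih =>
    obtain ⟨w, hw⟩ := ih
    refine ⟨SimpleGraph.Walk.cons h (SimpleGraph.Walk.cons h.symm w), ?_⟩
    simp only [SimpleGraph.Walk.length_cons, hw]
    ring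

theorem all_long (hc : X.Connected) {u : V} (w0 : X.Walk u u) (hw0 : ¬ Even w0.length) (a b : V) :
    ∃ n0 : ℕ, ∀ m ≥ n0, ∃ w : X.Walk a b, w.length = m := by
  obtain ⟨c, hadj⟩ : ∃ c, X.Adj u c := by
    cases w0 with
    | nil => simp at hw0
    | cons h p => exact ⟨_, h⟩
  obtain ⟨p⟩ := hc.preconnected a u
  obtain ⟨q⟩ := hc.preconnected u b
  refine ⟨p.length + q.length + w0.length, fun m hm => ?_⟩
  rcases Nat.even_or_odd (m - p.length - q.length) with h | h
  · obtain ⟨k, hk⟩ := h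
    obtain ⟨w, hw⟩ := even_loop hadj k
    refine ⟨(p.append w).append q, ?_⟩
    rw [SimpleGraph.Walk.length_append, SimpleGraph.Walk.length_append, hw]
    omega
  · rw [Nat.not_even_iff_odd] at hw0
    obtain ⟨k1, hk1⟩ := hw0
    obtain ⟨k2, hk2⟩ := h
    obtain ⟨w, hw⟩ := even_loop hadj (k2 - k1)
    refine ⟨((p.append w0).append w).append q, ?_⟩
    rw [SimpleGraph.Walk.length_append, SimpleGraph.Walk.length_append,
      SimpleGraph.Walk.length_append, hw]
    omega

end Aaux

open Aaux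

theorem t_A : St_A := by
  classical
  intro V _ X hc hcol
  rw [SimpleGraph.two_colorable_iff_forall_loop_even] at hcol
  push Not at hcol
  obtain ⟨u, w0, hw0⟩ := hcol
  choose n0 hn0 using fun x : V × V => all_long hc w0 hw0 x.1 x.2
  refine ⟨Finset.univ.sup n0, fun a b => ?_⟩
  have h1 : n0 (a, b) ≤ Finset.univ.sup n0 := Finset.le_sup (Finset.mem_univ _)
  obtain ⟨w, hw⟩ := hn0 (a, b) _ h1
  rw [SimpleGraph.adjMatrix_pow_apply_eq_card_walk]
  have h2 : 0 < Fintype.card { p : X.Walk a b | p.length = Finset.univ.sup n0 } :=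
    Fintype.card_pos_iff.2 ⟨⟨w, hw⟩⟩
  exact_mod_cast h2

end Pool.Agent.H767R3.DS
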