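import Pool.Agent.H767R3.DS.K

set_option autoImplicit false

namespace Pool.Agent.H767R3.DS

namespace Baux

open Matrix

lemma ker_step {V : Type} [Fintype V] (A : Matrix V V ℝ) (hA : A.IsSymm) (y : V → ℝ)
    (h : A *ᵥ (A *ᵥ y) = 0) : A *ᵥ y = 0 := by
  have h1 : (A *ᵥ y) ⬝ᵥ (A *ᵥ y) = 0 := by
    rw [Matrix.dotProduct_mulVec, ← Matrix.mulVec_transpose, hA.eq, h, zero_dotProduct]
  exact dotProduct_self_eq_zero.mp h1

lemma ker_pow {V : Type} [Fintype V] [DecidableEq V] (A : Matrix V V ℝ) (hA : A.IsSymm)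
    (x : V → ℝ) (k : ℕ) (h : (A ^ (k + 1)) *ᵥ x = 0) : A *ᵥ x = 0 := by
  induction k with
  | zero => simpa using h
  | succ k ih =>
    apply ih
    have h1 : A *ᵥ (A *ᵥ ((A ^ k) *ᵥ x)) = 0 := by
      rw [Matrix.mulVec_mulVec, Matrix.mulVec_mulVec, mul_assoc, ← pow_succ', ← pow_succ']
      exact h
    have h2 := ker_step A hA _ h1
    rw [Matrix.mulVec_mulVec, ← pow_succ'] at h2
    exact h2

lemma main {V : Type} [Fintype V] [DecidableEq V] (A : Matrix V V ℝ) (hA : A.IsSymm)
    (h01 : ∀ a b, A a b = 0 ∨ A a b = 1) (htw : ∀ a b, (∀ c, A a c = A b c) → a = b)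
    (m : ℕ) (hm : ∀ a b, 0 < (A ^ m) a b) :
    Ker (fun a b => (A ^ (2 * m)) a b /
      Real.sqrt ((A ^ (2 * m)) a a * (A ^ (2 * m)) b b)) := by
  have hMs : (A ^ m).IsSymm := by
    unfold Matrix.IsSymm
    rw [Matrix.transpose_pow, hA.eq]
  have hG : ∀ a b, (A ^ (2 * m)) a b = ∑ c, (A ^ m) a c * (A ^ m) b c := by
    intro a b
    rw [two_mul, pow_add, Matrix.mul_apply]
    refine Finset.sum_congr rfl fun c _ => ?_
    rw [hMs.apply b c]
  have hsymm : ∀ a b, (A ^ (2 * m)) a b = (A ^ (2 * m)) b a := by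
    intro a b
    rw [hG, hG]
    exact Finset.sum_congr rfl fun c _ => mul_comm _ _
  have hpos : ∀ a b, 0 < (A ^ (2 * m)) a b := by
    intro a b
    rw [hG]
    exact Finset.sum_pos (fun c _ => mul_pos (hm a c) (hm b c)) ⟨a, Finset.mem_univ _⟩
  have hstrict : ∀ a b, a ≠ b →
      (A ^ (2 * m)) a b ^ 2 < (A ^ (2 * m)) a a * (A ^ (2 * m)) b b := by
    intro a b hab
    by_contra hcon
    rw [not_lt] at hcon
    set G := A ^ (2 * m) with hGdef
    set t : ℝ := G a b / G b b with ht
    have htpos : 0 < t := div_pos (hpos a b) (hpos b b)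
    have hsum : ∑ c, ((A ^ m) a c - t * (A ^ m) b c) ^ 2 ≤ 0 := by
      have e : ∑ c, ((A ^ m) a c - t * (A ^ m) b c) ^ 2 = G a a - 2 * t * G a b + t ^ 2 * G b b := by
        rw [hG a a, hG a b, hG b b, Finset.mul_sum, Finset.mul_sum, ← Finset.sum_sub_distrib,
          ← Finset.sum_add_distrib]
        exact Finset.sum_congr rfl fun c _ => by ring
      have e2 : G a a - 2 * t * G a b + t ^ 2 * G b b = (G a a * G b b - G a b ^ 2) / G b b := by
        have := (hpos b b).ne'
        rw [ht]; field_simp; ring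
      rw [e, e2]
      exact div_nonpos_of_nonpos_of_nonneg (by linarith) (hpos b b).le
    have hzero : ∀ c, (A ^ m) a c - t * (A ^ m) b c = 0 := by
      intro c
      have h1 : ∑ c, ((A ^ m) a c - t * (A ^ m) b c) ^ 2 = 0 :=
        le_antisymm hsum (Finset.sum_nonneg fun _ _ => sq_nonneg _)
      have h2 := (Finset.sum_eq_zero_iff_of_nonneg (fun _ _ => sq_nonneg _)).mp h1 c
        (Finset.mem_univ c)
      exact pow_eq_zero_iff (two_ne_zero) |>.mp h2
    -- m ≠ 0
    obtain ⟨k, rfl⟩ : ∃ k, m = k + 1 := by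
      rcases m with _ | k
      · have := hm a b
        rw [pow_zero, Matrix.one_apply_ne hab] at this
        exact absurd this (lt_irrefl _)
      · exact ⟨k, rfl⟩
    have hx : (A ^ (k + 1)) *ᵥ (Pi.single a 1 - t • Pi.single b 1) = 0 := by
      rw [Matrix.mulVec_sub, Matrix.mulVec_smul]
      funext c
      simp only [Matrix.mulVec_single_one, Pi.sub_apply, Pi.smul_apply, smul_eq_mul, Pi.zero_apply,
        Matrix.col_apply]
      rw [hMs.apply a c, hMs.apply b c]
      exact hzero c
    have hx2 := ker_pow A hA _ k hx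
    have hx3 : ∀ c, A c a = t * A c b := by
      intro c
      have := congrFun hx2 c
      rw [Matrix.mulVec_sub, Matrix.mulVec_smul] at this
      simp only [Matrix.mulVec_single_one, Pi.sub_apply, Pi.smul_apply, smul_eq_mul, Pi.zero_apply,
        Matrix.col_apply] at this
      linarith
    -- a has a neighbour
    obtain ⟨c, hc⟩ : ∃ c, A a c ≠ 0 := by
      by_contra hno
      push Not at hno
      have := hm a b
      rw [pow_succ', Matrix.mul_apply] at this
      simp only [hno, zero_mul, Finset.sum_const_zero] at this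
      exact absurd this (lt_irrefl _)
    have hc1 : A c a = 1 := by
      rw [hA.apply a c]
      exact (h01 a c).resolve_left hc
    have ht1 : t = 1 := by
      have h1 := hx3 c
      rw [hc1] at h1
      rcases h01 c b with h | h
      · rw [h, mul_zero] at h1
        exact absurd h1 one_ne_zero
      · rw [h, mul_one] at h1
        exact h1.symm
    apply hab
    apply htw
    intro d
    have := hx3 d
    rw [ht1, one_mul] at this
    rw [← hA.apply a d, ← hA.apply b d]
    exact this
  refine ⟨?_, ?_, ?_, ?_⟩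
  · intro a b
    show (A ^ (2 * m)) a b / _ = (A ^ (2 * m)) b a / _
    rw [hsymm a b, mul_comm ((A ^ (2 * m)) a a)]
  · intro a
    rw [Real.sqrt_mul_self (hpos a a).le]
    exact div_self (hpos a a).ne'
  · intro a b
    exact div_pos (hpos a b) (Real.sqrt_pos.mpr (mul_pos (hpos a a) (hpos b b)))
  · intro a b hab
    rw [div_lt_one (Real.sqrt_pos.mpr (mul_pos (hpos a a) (hpos b b)))]
    exact (Real.lt_sqrt (hpos a b).le).mpr (hstrict a b hab)

end Baux

theorem t_B : St_B := by
  intro V _ X _ htw m hm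
  classical
  refine Baux.main _ (SimpleGraph.isSymm_adjMatrix (G := X) (α := ℝ)) ?_ ?_ m hm
  · intro a b
    rw [SimpleGraph.adjMatrix_apply]
    split_ifs
    · exact Or.inr rfl
    · exact Or.inl rfl
  · intro a b h
    apply htw
    intro z
    have := h z
    rw [SimpleGraph.adjMatrix_apply, SimpleGraph.adjMatrix_apply] at this
    by_cases h1 : X.Adj a z <;> by_cases h2 : X.Adj b z <;> simp [h1, h2] at this ⊢

end Pool.Agent.H767R3.DS
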