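import Pool.Agent.H767R3.DS.K

set_option autoImplicit false

namespace Pool.Agent.H767R3.DS

namespace Caux

open Classical in
theorem reach {V : Type} [Fintype V] (N : V → V → ℝ) (hN : Ker N) : ∀ (n : ℕ) (a b : V),
    (Finset.univ.filter (fun p : V × V => N a b < N p.1 p.2)).card = n → (SG N).Reachable a b := by
  intro n
  induction n using Nat.strong_induction_on with
  | _ n ih =>
    intro a b hn
    by_cases hab : a = b
    · rw [hab]
    by_cases hadj : (SG N).Adj a b
    · exact hadj.reachable
    have hex : ∃ c, c ≠ a ∧ c ≠ b ∧ N a b ≤ N a c * N c b := by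
      by_contra hcon
      push Not at hcon
      apply hadj
      refine ⟨hab, fun c h1 h2 => hcon c h1 h2, fun c h1 h2 => ?_⟩
      have h3 := hcon c h1 h2
      rw [hN.symm b c, hN.symm c a, hN.symm b a, mul_comm]
      exact h3
    obtain ⟨c, hca, hcb, hc⟩ := hex
    have p1 := hN.pos a c
    have p2 := hN.pos c b
    have l1 := hN.lt a c (Ne.symm hca)
    have l2 := hN.lt c b hcb
    have h1 : N a b < N a c := by nlinarith
    have h2 : N a b < N c b := by nlinarith
    have key : ∀ x y : V, N a b < N x y →
        (Finset.univ.filter (fun p : V × V => N x y < N p.1 p.2)).card < n := by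
      intro x y hxy
      rw [← hn]
      apply Finset.card_lt_card
      rw [Finset.ssubset_iff_of_subset]
      · refine ⟨(x, y), ?_, ?_⟩
        · simp [hxy]
        · simp
      · intro p hp
        simp only [Finset.mem_filter, Finset.mem_univ, true_and] at hp ⊢
        exact hxy.trans hp
    exact (ih _ (key a c h1) a c rfl).trans (ih _ (key c b h2) c b rfl)

end Caux

theorem t_C : St_C := by
  intro V _ _ N hN
  refine { preconnected := fun a b => Caux.reach N hN _ a b rfl, nonempty := inferInstance }

end Pool.Agent.H767R3.DS
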