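import Pool.Agent.H767R3.DS.K

/-! Task D: Schur powers see the indecomposable pairs. Proved by helper973. -/

set_option autoImplicit false

namespace Pool.Agent.H767R3.DS

namespace Daux

open Finset Filter Topology

variable {V : Type} [Fintype V] {N : V → V → ℝ}

/-- splitting off the two main terms -/
theorem split [DecidableEq V] (h : Ker N) {a b : V} (hab : a ≠ b) (s : ℕ) :
    ∑ z, (N a z) ^ s * (N z b) ^ s =
      2 * (N a b) ^ s + ∑ z ∈ ((univ : Finset V).erase a).erase b, (N a z * N z b) ^ s := by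
  have hb : b ∈ (univ : Finset V).erase a := Finset.mem_erase.2 ⟨hab.symm, Finset.mem_univ _⟩
  rw [← Finset.add_sum_erase univ (fun z => (N a z) ^ s * (N z b) ^ s) (Finset.mem_univ a),
    ← Finset.add_sum_erase _ (fun z => (N a z) ^ s * (N z b) ^ s) hb]
  simp only [h.one, one_pow, one_mul, mul_one]
  rw [← add_assoc]
  congr 1
  · ring
  · exact Finset.sum_congr rfl fun z _ => (mul_pow _ _ _).symm

theorem adj_case [DecidableEq V] (h : Ker N) {a b : V} (hadj : (SG N).Adj a b) :
    ∀ᶠ s : ℕ in atTop, ∑ z, (N a z) ^ s * (N z b) ^ s < 3 * (N a b) ^ s := by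
  have hab : a ≠ b := hadj.1
  have hN : 0 < N a b := h.pos a b
  have ht : Tendsto (fun s : ℕ => ∑ z ∈ ((univ : Finset V).erase a).erase b,
      (N a z * N z b / N a b) ^ s) atTop (𝓝 (∑ z ∈ ((univ : Finset V).erase a).erase b, 0)) := by
    refine tendsto_finsetSum _ fun z hz => ?_
    rw [Finset.mem_erase, Finset.mem_erase] at hz
    refine tendsto_pow_atTop_nhds_zero_of_lt_one ?_ ?_
    · exact div_nonneg (mul_nonneg (h.pos a z).le (h.pos z b).le) hN.le
    · rw [div_lt_one hN]
      exact hadj.2.1 z hz.2.1 hz.1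
  rw [Finset.sum_const_zero] at ht
  have he := ht.eventually_lt_const (show (0 : ℝ) < 1 by norm_num)
  filter_upwards [he] with s hs
  rw [split h hab]
  have h1 : ∑ z ∈ ((univ : Finset V).erase a).erase b, (N a z * N z b) ^ s =
      (N a b) ^ s * ∑ z ∈ ((univ : Finset V).erase a).erase b, (N a z * N z b / N a b) ^ s := by
    rw [Finset.mul_sum]
    refine Finset.sum_congr rfl fun z _ => ?_
    rw [← mul_pow, mul_div_cancel₀ _ hN.ne']
  rw [h1]
  have h2 : 0 < (N a b) ^ s := pow_pos hN s
  nlinarith [mul_lt_mul_of_pos_left hs h2]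

theorem nonadj_case [DecidableEq V] (h : Ker N) {a b : V} (hab : a ≠ b)
    (hadj : ¬ (SG N).Adj a b) (s : ℕ) :
    3 * (N a b) ^ s ≤ ∑ z, (N a z) ^ s * (N z b) ^ s := by
  have hc : ∃ c, c ≠ a ∧ c ≠ b ∧ N a b ≤ N a c * N c b := by
    by_contra hno
    push Not at hno
    refine hadj ⟨hab, fun c h1 h2 => hno c h1 h2, fun c h1 h2 => ?_⟩
    have h3 := hno c h1 h2
    rw [h.symm b c, h.symm c a, h.symm b a, mul_comm]
    exact h3
  obtain ⟨c, hca, hcb, hle⟩ := hc
  rw [split h hab]
  have hmem : c ∈ ((univ : Finset V).erase a).erase b :=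
    Finset.mem_erase.2 ⟨hcb, Finset.mem_erase.2 ⟨hca, Finset.mem_univ _⟩⟩
  have h1 := Finset.single_le_sum (f := fun z => (N a z * N z b) ^ s)
    (fun z _ => pow_nonneg (mul_nonneg (h.pos a z).le (h.pos z b).le) s) hmem
  have h2 : (N a b) ^ s ≤ (N a c * N c b) ^ s := pow_le_pow_left₀ (h.pos a b).le hle s
  linarith

end Daux

open Finset Filter Topology in
theorem t_D : St_D := by
  classical
  intro V _ N h
  have hall : ∀ᶠ s : ℕ in atTop, ∀ a b : V, a ≠ b →
      ((SG N).Adj a b ↔ ∑ z, (N a z) ^ s * (N z b) ^ s < 3 * (N a b) ^ s) := by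
    rw [Filter.eventually_all]
    intro a
    rw [Filter.eventually_all]
    intro b
    by_cases hadj : (SG N).Adj a b
    · filter_upwards [Daux.adj_case h hadj] with s hs _
      exact ⟨fun _ => hs, fun _ => hadj⟩
    · refine Filter.Eventually.of_forall fun s hab => ?_
      have h1 := Daux.nonadj_case h hab hadj s
      exact ⟨fun h2 => absurd h2 hadj, fun h2 => absurd h2 (not_lt.2 h1)⟩
  exact hall.exists

end Pool.Agent.H767R3.DS
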