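import Pool.Agent.H767R3.DS.K

set_option autoImplicit false

namespace Pool.Agent.H767R3.DS

namespace Eaux

theorem le_one {V : Type} {N : V → V → ℝ} (h : Ker N) (a b : V) : N a b ≤ 1 := by
  by_cases hab : a = b
  · rw [hab, h.one]
  · exact (h.lt a b hab).le

theorem ker_kk {V : Type} {N : V → V → ℝ} (h : Ker N) : Ker (kk N) := by
  refine ⟨fun a b => ?_, fun a => ?_, fun a b => ?_, fun a b hab => ?_⟩
  · simp only [kk]; rw [h.symm a.1 b.1, h.symm a.2 b.2]
  · simp only [kk]; rw [h.one, h.one]; norm_num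
  · exact mul_pos (h.pos _ _) (h.pos _ _)
  · simp only [kk]
    by_cases h1 : a.1 = b.1
    · have h2 : a.2 ≠ b.2 := fun h2 => hab (Prod.ext h1 h2)
      have e1 := h.lt _ _ h2
      have e2 := le_one h a.1 b.1
      have e3 := h.pos a.1 b.1
      have e4 := h.pos a.2 b.2
      nlinarith
    · have e1 := h.lt _ _ h1
      have e2 := le_one h a.2 b.2
      have e3 := h.pos a.1 b.1
      have e4 := h.pos a.2 b.2
      nlinarith

theorem adj_iff {V : Type} {N : V → V → ℝ} (h : Ker N) (a b : V) :
    (SG N).Adj a b ↔ a ≠ b ∧ ∀ c, c ≠ a → c ≠ b → N a c * N c b < N a b := by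
  constructor
  · intro H
    exact ⟨H.1, H.2.1⟩
  · intro H
    refine ⟨H.1, H.2, fun c h1 h2 => ?_⟩
    have := H.2 c h1 h2
    rw [h.symm b c, h.symm c a, h.symm b a, mul_comm]
    exact this

/-- fibre, first coordinate -/
theorem back {V : Type} {N : V → V → ℝ} (h : Ker N) (p q z : V)
    (H : (SG N).Adj p q) (x y : V) (h1 : ¬ (x = p ∧ y = z)) (h2 : ¬ (x = q ∧ y = z)) :
    N p x * N z y * (N x q * N y z) < N p q := by
  rw [adj_iff h] at H
  have hle : N p x * N x q ≤ N p q := by
    by_cases e1 : x = p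
    · rw [e1, h.one, one_mul]
    by_cases e2 : x = q
    · rw [e2, h.one, mul_one]
    exact (H.2 x e1 e2).le
  have p1 := h.pos p x
  have p2 := h.pos x q
  have p3 := h.pos z y
  have p4 := h.pos y z
  have p5 : 0 < N p x * N x q := mul_pos p1 p2
  by_cases hy : y = z
  · have e1 : x ≠ p := fun e => h1 ⟨e, hy⟩
    have e2 : x ≠ q := fun e => h2 ⟨e, hy⟩
    rw [hy, h.one, mul_one, mul_one]
    exact H.2 x e1 e2
  · have q1 := h.lt y z hy
    have q2 := h.lt z y (Ne.symm hy)
    have q3 : N z y * N y z < 1 := by nlinarith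
    calc N p x * N z y * (N x q * N y z) = (N p x * N x q) * (N z y * N y z) := by ring
      _ < (N p x * N x q) * 1 := mul_lt_mul_of_pos_left q3 p5
      _ ≤ N p q := by rw [mul_one]; exact hle

end Eaux

open Eaux in
theorem t_E : St_E := by
  intro V N h
  refine ⟨ker_kk h, ?_⟩
  ext a b
  rw [adj_iff (ker_kk h), SimpleGraph.boxProd_adj]
  constructor
  · rintro ⟨hab, H⟩
    by_cases h1 : a.1 = b.1
    · right
      refine ⟨?_, h1⟩
      rw [adj_iff h]
      have h2 : a.2 ≠ b.2 := fun h2 => hab (Prod.ext h1 h2)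
      refine ⟨h2, fun x hx1 hx2 => ?_⟩
      have := H (a.1, x) (fun e => hx1 (congrArg Prod.snd e)) (fun e => hx2 (congrArg Prod.snd e))
      simp only [kk] at this
      rw [← h1, h.one, one_mul, one_mul, one_mul] at this
      exact this
    · by_cases h2 : a.2 = b.2
      · left
        refine ⟨?_, h2⟩
        rw [adj_iff h]
        refine ⟨h1, fun x hx1 hx2 => ?_⟩
        have := H (x, a.2) (fun e => hx1 (congrArg Prod.fst e))
          (fun e => hx2 (congrArg Prod.fst e))
        simp only [kk] at this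
        rw [← h2, h.one, mul_one, mul_one, mul_one] at this
        exact this
      · exfalso
        have := H (a.1, b.2) (fun e => h2 (by rw [Prod.ext_iff] at e; exact e.2.symm))
          (fun e => h1 (by rw [Prod.ext_iff] at e; exact e.1))
        simp only [kk] at this
        rw [h.one, h.one] at this
        linarith
  · rintro (⟨H, h2⟩ | ⟨H, h1⟩)
    · refine ⟨fun e => H.ne (congrArg Prod.fst e), fun c hc1 hc2 => ?_⟩
      have := back h a.1 b.1 a.2 H c.1 c.2 (fun e => hc1 (Prod.ext e.1 e.2))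
        (fun e => hc2 (Prod.ext e.1 (e.2.trans h2)))
      simp only [kk]
      rw [← h2, h.one, mul_one]
      exact this
    · refine ⟨fun e => H.ne (congrArg Prod.snd e), fun c hc1 hc2 => ?_⟩
      have := back h a.2 b.2 a.1 H c.2 c.1 (fun e => hc1 (Prod.ext e.2 e.1))
        (fun e => hc2 (Prod.ext (e.2.trans h1) e.1))
      simp only [kk]
      rw [← h1, h.one, one_mul]
      calc N a.1 c.1 * N a.2 c.2 * (N c.1 a.1 * N c.2 b.2) =
          N a.2 c.2 * N a.1 c.1 * (N c.2 b.2 * N c.1 a.1) := by ring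
        _ < N a.2 b.2 := this

end Pool.Agent.H767R3.DS
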