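import Pool.Agent.H767R3.DS.Q

set_option autoImplicit false

namespace Pool.Agent.H767R3.DS

open Pool.Agent.H741.QS

namespace Faux

section

variable {V : Type} [Fintype V] {B : Type} [Ring B] [StarRing B] [Algebra ℝ B] [StarModule ℝ B]
variable {X S : SimpleGraph V} {u : (V × V) → (V × V) → B} {e : B}

/-- the hypotheses for the direct square -/
structure HX (X : SimpleGraph V) (u : (V × V) → (V × V) → B) : Prop where
  a1 : ∀ a b w v : V × V, (dir X X).Adj a b → ¬ (dir X X).Adj w v → u a w * u b v = 0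
  a2 : ∀ a b w v : V × V, (dir X X).Adj w v → ¬ (dir X X).Adj a b → u a w * u b v = 0

theorem HX.of (h : QIso (dir X X) (dir X X) u) : HX X u where
  a1 a b w v h1 h2 := h.adj a b w v (fun hh => h2 (hh.1 h1))
  a2 a b w v h1 h2 := h.adj a b w v (fun hh => h2 (hh.2 h1))

theorem HX.transpose (h : HX X u) : HX X (fun w a => u a w) where
  a1 a b w v h1 h2 := h.a2 w v a b h1 h2
  a2 a b w v h1 h2 := h.a1 w v a b h1 h2

theorem HX.swap (h : HX X u) : HX X (fun a w => u a.swap w.swap) where
  a1 a b w v h1 h2 := h.a1 _ _ _ _ ⟨h1.2, h1.1⟩ (fun hh => h2 ⟨hh.2, hh.1⟩)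
  a2 a b w v h1 h2 := h.a2 _ _ _ _ ⟨h1.2, h1.1⟩ (fun hh => h2 ⟨hh.2, hh.1⟩)

theorem U0_adj (h : EH S u e) (hS : S.Connected) (hX : HX X u) (hne : ∃ a b, X.Adj a b)
    (x0 : V) {a b w v : V} (hab : X.Adj a b) (hwv : ¬ X.Adj w v) :
    U0 u e x0 a w * U0 u e x0 b v = 0 := by
  obtain ⟨x1, x2, h12⟩ := hne
  rw [h.U0_indep hS x0 x1 a w, h.U0_indep hS x0 x2 b v]
  unfold U0
  rw [h.mul_e, Finset.sum_mul, Finset.sum_mul]
  refine Finset.sum_eq_zero fun y' _ => ?_
  rw [Finset.mul_sum, Finset.sum_mul]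
  refine Finset.sum_eq_zero fun v' _ => ?_
  rw [hX.a1 (a, x1) (b, x2) (w, y') (v, v') ⟨hab, h12⟩ (fun hh => hwv hh.1), zero_mul]

open Classical in
theorem qiso (h : EH S u e) (hS : S.Connected) (hX : HX X u) (hne : ∃ a b, X.Adj a b) (x0 : V) :
    QIso X X (fun x y => U0 u e x0 x y + if x = y then (1 - e) else 0) where
  star_eq := (h.qiso hS x0).star_eq
  idem := (h.qiso hS x0).idem
  rowOrth := (h.qiso hS x0).rowOrth
  colOrth := (h.qiso hS x0).colOrth
  rowSum := (h.qiso hS x0).rowSum
  colSum := (h.qiso hS x0).colSum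
  adj a b w v hn := by
    have h0 : U0 u e x0 a w * U0 u e x0 b v = 0 := by
      by_cases hab : X.Adj a b
      · exact U0_adj h hS hX hne x0 hab (fun hwv => hn ⟨fun _ => hwv, fun _ => hab⟩)
      · have hwv : X.Adj w v := by
          by_contra hwv
          exact hn ⟨fun hh => absurd hh hab, fun hh => absurd hh hwv⟩
        rw [h.U0_eq hS x0 x0, h.U0_eq hS x0 x0]
        exact U0_adj h.transpose hS hX.transpose hne x0 hwv hab
    rw [add_mul, mul_add, mul_add, h0]
    have hA : U0 u e x0 a w * (if b = v then (1 - e) else 0) = 0 := by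
      split_ifs
      · rw [mul_sub, mul_one, h.U0_e, sub_self]
      · exact mul_zero _
    have hB : (if a = w then (1 - e) else 0) * U0 u e x0 b v = 0 := by
      split_ifs
      · rw [sub_mul, one_mul, h.e_U0, sub_self]
      · exact zero_mul _
    have hC : (if a = w then (1 - e) else 0) * (if b = v then (1 - e) else 0) = (0 : B) := by
      split_ifs with h1 h2
      · subst h1 h2
        exact absurd Iff.rfl hn
      · exact mul_zero _
      · exact zero_mul _
      · exact zero_mul _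
    rw [hA, hB, hC]
    simp

theorem U0_comm (h : EH S u e) (hS : S.Connected) (hX : HX X u) (hne : ∃ a b, X.Adj a b)
    (hcomm : ∀ U : V → V → B, QIso X X U → ∀ x y z w, U x y * U z w = U z w * U x y)
    (x0 x y z w : V) : U0 u e x0 x y * U0 u e x0 z w = U0 u e x0 z w * U0 u e x0 x y := by
  classical
  have h1 := hcomm _ (qiso h hS hX hne x0) x y z w
  have key : ∀ x y : V, (U0 u e x0 x y + if x = y then (1 - e) else 0) * e = U0 u e x0 x y := by
    intro x y
    rw [add_mul, h.U0_e]
    split_ifs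
    · rw [sub_mul, one_mul, h.e2, sub_self, add_zero]
    · rw [zero_mul, add_zero]
  have key2 : ∀ x y : V, e * (U0 u e x0 x y + if x = y then (1 - e) else 0) = U0 u e x0 x y := by
    intro x y
    rw [mul_add, h.e_U0]
    split_ifs
    · rw [mul_sub, mul_one, h.e2, sub_self, add_zero]
    · rw [mul_zero, add_zero]
  have h2 := congrArg (fun t => e * t * e) h1
  beta_reduce at h2
  rw [← mul_assoc, key2, mul_assoc, key, ← mul_assoc, key2, mul_assoc, key] at h2
  exact h2

theorem final (h : EH S u e) (hS : S.Connected) (hX : HX X u) (hne : ∃ a b, X.Adj a b)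
    (hcomm : ∀ U : V → V → B, QIso X X U → ∀ x y z w, U x y * U z w = U z w * U x y)
    (a w b v : V × V) : e * (u a w * u b v) = e * (u b v * u a w) := by
  obtain ⟨x, x'⟩ := a
  obtain ⟨y, y'⟩ := w
  obtain ⟨z, z'⟩ := b
  obtain ⟨t, t'⟩ := v
  have f1 : ∀ p q r s : V, U0 u e x p q * U0 u e x r s = U0 u e x r s * U0 u e x p q :=
    fun p q r s => U0_comm h hS hX hne hcomm x p q r s
  have f2 : ∀ p q r s : V, U0 (fun a w => u a.swap w.swap) e x p q *
      U0 (fun a w => u a.swap w.swap) e x r s = U0 (fun a w => u a.swap w.swap) e x r s *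
      U0 (fun a w => u a.swap w.swap) e x p q :=
    fun p q r s => U0_comm h.swap hS hX.swap hne hcomm x p q r s
  have f3 : ∀ p q r s : V, U0 u e x p q * U0 (fun a w => u a.swap w.swap) e x r s =
      u (p, r) (q, s) * e ∧ U0 (fun a w => u a.swap w.swap) e x r s * U0 u e x p q =
      u (p, r) (q, s) * e := by
    intro p q r s
    rw [h.U0_indep hS x r, h.swap.U0_indep hS x p]
    exact h.factor p r q s
  have g1 : ∀ a w b v : V × V, e * (u a w * u b v) = (u a w * e) * (u b v * e) := by
    intro a w b v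
    calc e * (u a w * u b v) = (e * u a w) * u b v := (mul_assoc _ _ _).symm
      _ = (u a w * e) * u b v := by rw [h.e3]
      _ = (u a w * (e * e)) * u b v := by rw [h.e2]
      _ = (u a w * e) * (e * u b v) := by simp only [mul_assoc]
      _ = (u a w * e) * (u b v * e) := by rw [h.e3]
  rw [g1, g1, ← (f3 x y x' y').1, ← (f3 z t z' t').1]
  set P := U0 u e x x y
  set Q := U0 (fun a w => u a.swap w.swap) e x x' y' with hQ
  set P' := U0 u e x z t with hP'
  set Q' := U0 (fun a w => u a.swap w.swap) e x z' t' with hQ'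
  have c1 : P * P' = P' * P := f1 _ _ _ _
  have c2 : Q * Q' = Q' * Q := f2 _ _ _ _
  have c3 : P * Q' = Q' * P := (f3 _ _ _ _).1.trans (f3 _ _ _ _).2.symm
  have c4 : P' * Q = Q * P' := (f3 _ _ _ _).1.trans (f3 _ _ _ _).2.symm
  calc P * Q * (P' * Q') = P * (Q * P') * Q' := by simp only [mul_assoc]
    _ = P * (P' * Q) * Q' := by rw [c4]
    _ = (P * P') * (Q * Q') := by simp only [mul_assoc]
    _ = (P' * P) * (Q' * Q) := by rw [c1, c2]
    _ = P' * (P * Q') * Q := by simp only [mul_assoc]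
    _ = P' * (Q' * P) * Q := by rw [c3]
    _ = P' * Q' * (P * Q) := by simp only [mul_assoc]

end

end Faux

theorem t_F : St_F := by
  intro V _ _ X S hS hne hNQ A _ u hq hX e he1 he2 he3 hd1 hd2 a w b v
  have hEH : EH S u e := ⟨hq, he1, he2, he3, hd1, hd2⟩
  exact Faux.final hEH hS (Faux.HX.of hX) hne
    (fun U hU x y z w => comm_of_qiso X hNQ U hU x y z w) a w b v

end Pool.Agent.H767R3.DS
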