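import Pool.Agent.H767R3.DS.Q

set_option autoImplicit false

namespace Pool.Agent.H767R3.DS

open Pool.Agent.H741.QS

namespace Gaux

/-- the pair as a function on `Bool` -/
def tof {V : Type} (p : V × V) : Bool → V := fun b => if b then p.2 else p.1

/-- the box square as a `boxPi` -/
def I {V : Type} (S : SimpleGraph V) : (S □ S) ≃g boxPi (fun _ : Bool => S) where
  toFun := tof
  invFun f := (f false, f true)
  left_inv p := by simp [tof]
  right_inv f := by
    funext b
    cases b <;> simp [tof]
  map_rel_iff' := by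
    rintro ⟨x1, x2⟩ ⟨y1, y2⟩
    rw [SimpleGraph.boxProd_adj, boxPi_adj]
    simp only [Equiv.coe_fn_mk, tof]
    constructor
    · rintro ⟨i, h1, h2⟩
      cases i
      · left
        refine ⟨by simpa using h1, ?_⟩
        have := h2 true (by simp)
        simpa using this
      · right
        refine ⟨by simpa using h1, ?_⟩
        have := h2 false (by simp)
        simpa using this
    · rintro (⟨h1, h2⟩ | ⟨h1, h2⟩)
      · refine ⟨false, by simpa using h1, ?_⟩
        intro j hj
        cases j
        · exact absurd rfl hj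
        · simpa using h2
      · refine ⟨true, by simpa using h1, ?_⟩
        intro j hj
        cases j
        · simpa using h2
        · exact absurd rfl hj

theorem dir_false {V : Type} (S : SimpleGraph V) (a b : V × V) :
    DirAdj (fun _ : Bool => S) false (I S a) (I S b) ↔ S.Adj a.1 b.1 ∧ a.2 = b.2 := by
  constructor
  · rintro ⟨h1, h2⟩
    exact ⟨h1, h2 true (by simp)⟩
  · rintro ⟨h1, h2⟩
    refine ⟨h1, ?_⟩
    intro j hj
    cases j
    · exact absurd rfl hj
    · exact h2

theorem dir_true {V : Type} (S : SimpleGraph V) (a b : V × V) :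
    DirAdj (fun _ : Bool => S) true (I S a) (I S b) ↔ S.Adj a.2 b.2 ∧ a.1 = b.1 := by
  constructor
  · rintro ⟨h1, h2⟩
    exact ⟨h1, h2 false (by simp)⟩
  · rintro ⟨h1, h2⟩
    refine ⟨h1, ?_⟩
    intro j hj
    cases j
    · exact h2
    · exact absurd rfl hj

/-- the flip of the direct square -/
def flip {V : Type} (X : SimpleGraph V) : dir X X ≃g dir X X where
  toEquiv := Equiv.prodComm V V
  map_rel_iff' := by
    rintro ⟨x1, x2⟩ ⟨y1, y2⟩
    show (X.Adj x2 y2 ∧ X.Adj x1 y1) ↔ (X.Adj x1 y1 ∧ X.Adj x2 y2)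
    exact and_comm

end Gaux

open Gaux

theorem t_G (hF : St_F) : St_G := by
  classical
  intro V _ _ X S hS hV hprime hK hX hNQ A _ u hq hdir x0 y0 z0 w0
  obtain ⟨u1, hu1⟩ : ∃ u1 : (Bool → V) → (Bool → V) → A,
      ∀ z w, u1 z w = u ((I S).symm z) ((I S).symm w) := ⟨fun z w => u _ _, fun _ _ => rfl⟩
  have hq1 : QIso (boxPi (fun _ : Bool => S)) (boxPi (fun _ : Bool => S)) u1 := by
    have h := hq.transport (I S).symm (I S).symm
    have he : u1 = fun a w => u ((I S).symm a) ((I S).symm w) := by funext a w; exact hu1 a w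
    rw [he]; exact h
  have hu1' : ∀ a w, u1 (I S a) (I S w) = u a w := by
    intro a w
    rw [hu1, (I S).symm_apply_apply, (I S).symm_apply_apply]
  obtain ⟨E, e1, e2, e3, e4, e5, e6⟩ := exists_central (fun _ : Bool => S)
    (fun _ => hS) (fun _ => hV) (fun _ => hprime) (fun _ => hK)
    (fun x hx => CStarRing.star_mul_self_eq_zero_iff x |>.1 hx) u1 hq1
  by_contra hne
  have hx : u x0 y0 * u z0 w0 - u z0 w0 * u x0 y0 ≠ 0 := sub_ne_zero.2 hne
  obtain ⟨e, σ, he1, he2, he3, he4, he5⟩ := exists_pure E e1 e2 e3 e4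
    (Set.range (fun p : (Bool → V) × (Bool → V) => u1 p.1 p.2))
    (by rintro k l _ ⟨p, rfl⟩; exact e5 k l p.1 p.2) _ hx
  have he3' : ∀ a w, e * u1 a w = u1 a w * e := fun a w => he3 _ ⟨(a, w), rfl⟩
  have he3'' : ∀ a w, e * u a w = u a w * e := by
    intro a w
    rw [← hu1' a w]
    exact he3' _ _
  have he0 : e ≠ 0 := by
    rintro rfl
    exact he5 (zero_mul _)
  have hEe : ∀ k, E k (σ k) * e = e := by
    intro k
    have h := congrArg star (he4 k)
    rwa [star_mul, he1, e1] at h
  have hσ : ∀ k a b w v, DirAdj (fun _ : Bool => S) k a b →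
      ¬ DirAdj (fun _ : Bool => S) (σ k) w v → u1 a w * u1 b v * e = 0 := by
    intro k a b w v hd hn
    rw [← hEe k, ← mul_assoc, e6 k (σ k) a b w v hd hn, zero_mul]
  have hbij : Function.Bijective σ := sigma_bijective (fun _ : Bool => S)
    (fun _ => hS) (fun _ => hV) u1 hq1 e he0 he2 he3' σ hσ
  have hσu : ∀ k (a b w v : V × V), DirAdj (fun _ : Bool => S) k (I S a) (I S b) →
      ¬ DirAdj (fun _ : Bool => S) (σ k) (I S w) (I S v) → u a w * u b v * e = 0 := by
    intro k a b w v hd hn
    have := hσ k (I S a) (I S b) (I S w) (I S v) hd hn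
    rwa [hu1', hu1'] at this
  have hcase : (σ false = false ∧ σ true = true) ∨ (σ false = true ∧ σ true = false) := by
    have hinj : σ false ≠ σ true := fun h => absurd (hbij.1 h) (by decide)
    cases h1 : σ false <;> cases h2 : σ true
    · rw [h1, h2] at hinj; exact absurd rfl hinj
    · exact Or.inl ⟨rfl, rfl⟩
    · exact Or.inr ⟨rfl, rfl⟩
    · rw [h1, h2] at hinj; exact absurd rfl hinj
  rcases hcase with ⟨s1, s2⟩ | ⟨s1, s2⟩
  · have hend := hF V X S hS hX hNQ A u hq hdir e he1 he2 he3'' (by
      intro a b w v h1 h2 hn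
      refine hσu false a b w v ((dir_false S a b).2 ⟨h1, h2⟩) ?_
      rw [s1, dir_false]
      exact hn) (by
      intro a b w v h1 h2 hn
      refine hσu true a b w v ((dir_true S a b).2 ⟨h2, h1⟩) ?_
      rw [s2, dir_true]
      exact fun h => hn ⟨h.2, h.1⟩)
    apply he5
    rw [mul_sub, sub_eq_zero]
    exact hend _ _ _ _
  · have hq' : QIso (S □ S) (S □ S) (fun a w => u a w.swap) :=
      hq.transport SimpleGraph.Iso.refl (SimpleGraph.boxProdComm S S)
    have hdir' : QIso (dir X X) (dir X X) (fun a w => u a w.swap) :=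
      hdir.transport SimpleGraph.Iso.refl (flip X)
    have hend := hF V X S hS hX hNQ A (fun a w => u a w.swap) hq' hdir' e he1 he2
      (fun a w => he3'' _ _) (by
      intro a b w v h1 h2 hn
      refine hσu false a b w.swap v.swap ((dir_false S a b).2 ⟨h1, h2⟩) ?_
      rw [s1, dir_true]
      exact hn) (by
      intro a b w v h1 h2 hn
      refine hσu true a b w.swap v.swap ((dir_true S a b).2 ⟨h2, h1⟩) ?_
      rw [s2, dir_false]
      exact fun h => hn ⟨h.2, h.1⟩)
    apply he5
    rw [mul_sub, sub_eq_zero]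
    have := hend x0 y0.swap z0 w0.swap
    simpa using this

end Pool.Agent.H767R3.DS
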