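import Pool.Agent.H767R3.DS.Q

set_option autoImplicit false

namespace Pool.Agent.H767R3.DS

open Pool.Agent.H741.QS

namespace Haux

theorem flip_adj {V : Type} (X : SimpleGraph V) (S : V → V → Prop)
    (h1 : ∀ x x' y y', X.Adj x x' → X.Adj y y' → S x y → S x' y') (p q : V × V)
    (h : (dir X X).Adj p q) : (dir X X).Adj (qsnFlip S p) (qsnFlip S q) := by
  obtain ⟨x, y⟩ := p
  obtain ⟨x', y'⟩ := q
  obtain ⟨ha, hb⟩ := h
  simp only at ha hb
  by_cases hs : S x y
  · rw [qsnFlip_pos S _ _ hs, qsnFlip_pos S _ _ (h1 _ _ _ _ ha hb hs)]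
    exact ⟨hb, ha⟩
  · rw [qsnFlip_neg S _ _ hs, qsnFlip_neg S _ _ (fun hh => hs (h1 _ _ _ _ ha.symm hb.symm hh))]
    exact ⟨ha, hb⟩

theorem connected {V : Type} [Fintype V] [Nonempty V] (X : SimpleGraph V)
    (h : NoQuantumSymmetry (dir X X)) : X.Connected := by
  classical
  by_contra hcon
  have hpre : ¬ X.Preconnected := fun hp => hcon ⟨hp⟩
  unfold SimpleGraph.Preconnected at hpre
  push Not at hpre
  obtain ⟨c, d, hcd⟩ := hpre
  by_cases hE : ∃ a a', X.Adj a a'
  · obtain ⟨a, a', haa⟩ := hE
    obtain ⟨e, he⟩ : ∃ e, ¬ X.Reachable a e := by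
      by_contra hno
      push Not at hno
      exact hcd ((hno c).symm.trans (hno d))
    have hae : a ≠ e := by
      rintro rfl
      exact he (SimpleGraph.Reachable.refl _)
    set S1 : V → V → Prop := fun x y => X.Reachable a x ∧ X.Reachable a y with hS1
    set S2 : V → V → Prop := fun x y => (X.Reachable a x ∧ X.Reachable e y) ∨
      (X.Reachable e x ∧ X.Reachable a y) with hS2
    have hno : ∀ x, X.Reachable a x → X.Reachable e x → False := fun x h1 h2 =>
      he (h1.trans h2.symm)
    refine qsn_key (dir X X) (qsnFlip S1) (qsnFlip S2) (qsnFlip_inv S1 ?_) (qsnFlip_inv S2 ?_)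
      (fun x y => flip_adj X S1 ?_ x y) (fun x y => flip_adj X S2 ?_ x y) ?_
      (a, a') (a, e) ?_ ?_ h
    · intro x y hxy
      exact ⟨hxy.2, hxy.1⟩
    · intro x y hxy
      rcases hxy with hxy | hxy
      · exact Or.inr ⟨hxy.2, hxy.1⟩
      · exact Or.inl ⟨hxy.2, hxy.1⟩
    · intro x x' y y' hx hy hs
      exact ⟨hs.1.trans hx.reachable, hs.2.trans hy.reachable⟩
    · intro x x' y y' hx hy hs
      rcases hs with hs | hs
      · exact Or.inl ⟨hs.1.trans hx.reachable, hs.2.trans hy.reachable⟩
      · exact Or.inr ⟨hs.1.trans hx.reachable, hs.2.trans hy.reachable⟩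
    · rintro ⟨x, y⟩
      by_cases hs : S1 x y
      · right
        refine qsnFlip_neg S2 x y ?_
        rintro (hh | hh)
        · exact hno _ hs.2 hh.2
        · exact hno _ hs.1 hh.1
      · left
        exact qsnFlip_neg S1 x y hs
    · rw [qsnFlip_pos S1 a a' ⟨SimpleGraph.Reachable.refl _, haa.reachable⟩]
      intro hh
      exact haa.ne (Prod.ext_iff.1 hh).2
    · rw [qsnFlip_pos S2 a e (Or.inl ⟨SimpleGraph.Reachable.refl _, SimpleGraph.Reachable.refl _⟩)]
      intro hh
      exact hae (Prod.ext_iff.1 hh).2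
  · push Not at hE
    have hcd' : c ≠ d := by
      rintro rfl
      exact hcd (SimpleGraph.Reachable.refl _)
    have hE2 : ∀ p q : V × V, ¬ (dir X X).Adj p q := by
      intro p q hpq
      exact hE _ _ hpq.1
    refine qsn_key (dir X X) (Equiv.swap (c, c) (c, d)) (Equiv.swap (d, c) (d, d))
      (fun x => Equiv.swap_apply_self _ _ x) (fun x => Equiv.swap_apply_self _ _ x)
      (fun x y hxy => absurd hxy (hE2 _ _)) (fun x y hxy => absurd hxy (hE2 _ _)) ?_ (c, c) (d, c)
      ?_ ?_ h
    · rintro ⟨x, y⟩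
      by_cases hx : x = c
      · right
        refine Equiv.swap_apply_of_ne_of_ne ?_ ?_
        · intro hh
          exact hcd' (hx.symm.trans (Prod.ext_iff.1 hh).1)
        · intro hh
          exact hcd' (hx.symm.trans (Prod.ext_iff.1 hh).1)
      · left
        refine Equiv.swap_apply_of_ne_of_ne ?_ ?_
        · intro hh
          exact hx (Prod.ext_iff.1 hh).1
        · intro hh
          exact hx (Prod.ext_iff.1 hh).1
    · rw [Equiv.swap_apply_left]
      intro hh
      exact hcd' (Prod.ext_iff.1 hh).2.symm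
    · rw [Equiv.swap_apply_left]
      intro hh
      exact hcd' (Prod.ext_iff.1 hh).2.symm

theorem self {V : Type} [Fintype V] [Nonempty V] (X : SimpleGraph V)
    (h : NoQuantumSymmetry (dir X X)) : NoQuantumSymmetry X := by
  classical
  intro A _ v hv hc
  have hc' := (qsn_comm_iff X v).1 hc
  set u : Matrix (V × V) (V × V) A := fun p q => if p.2 = q.2 then v p.1 q.1 else 0 with hu
  have hum : IsMagic u := by
    refine ⟨?_, ?_, ?_, ?_⟩
    · rintro ⟨x, y⟩ ⟨x', y'⟩
      simp only [hu]
      split_ifs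
      · exact hv.star_eq _ _
      · exact star_zero _
    · rintro ⟨x, y⟩ ⟨x', y'⟩
      simp only [hu]
      split_ifs
      · exact hv.mul_self _ _
      · exact mul_zero _
    · rintro ⟨x, y⟩
      simp only [hu]
      rw [Fintype.sum_prod_type]
      simp only [Finset.sum_ite_eq, Finset.mem_univ, if_true]
      exact hv.row_sum x
    · rintro ⟨x, y⟩
      simp only [hu]
      rw [Fintype.sum_prod_type]
      simp only [Finset.sum_ite_eq', Finset.mem_univ, if_true]
      exact hv.col_sum x
  have huc : u * (dir X X).adjMatrix A = (dir X X).adjMatrix A * u := by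
    rw [qsn_comm_iff]
    rintro ⟨x, y⟩ ⟨x', y'⟩
    simp only [hu]
    rw [Fintype.sum_prod_type, Fintype.sum_prod_type]
    have e1 : ∀ a : V, (∑ b : V, if (dir X X).Adj (a, b) (x', y') then
        (if y = b then v x a else 0) else 0) =
        (if X.Adj a x' ∧ X.Adj y y' then v x a else 0) := by
      intro a
      rw [Finset.sum_eq_single y]
      · simp only [dir, if_true]
      · intro b _ hb
        rw [if_neg (fun hh : y = b => hb hh.symm)]
        simp
      · intro hh
        exact absurd (Finset.mem_univ _) hh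
    have e2 : ∀ a : V, (∑ b : V, if (dir X X).Adj (x, y) (a, b) then
        (if b = y' then v a x' else 0) else 0) =
        (if X.Adj x a ∧ X.Adj y y' then v a x' else 0) := by
      intro a
      rw [Finset.sum_eq_single y']
      · simp only [dir, if_true]
      · intro b _ hb
        rw [if_neg hb]
        simp
      · intro hh
        exact absurd (Finset.mem_univ _) hh
    rw [Finset.sum_congr rfl (fun a _ => e1 a), Finset.sum_congr rfl (fun a _ => e2 a)]
    by_cases hyy : X.Adj y y'
    · simp only [hyy, and_true]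
      exact hc' x x'
    · simp only [hyy, and_false, if_false]
  intro x y z w
  obtain ⟨t⟩ := ‹Nonempty V›
  have := h A u hum huc (x, t) (y, t) (z, t) (w, t)
  simpa [hu] using this

theorem swap_adj {W : Type} [DecidableEq W] (G : SimpleGraph W) (p q : W)
    (h : ∀ r, G.Adj p r ↔ G.Adj q r) (a b : W) (hab : G.Adj a b) :
    G.Adj (Equiv.swap p q a) (Equiv.swap p q b) := by
  have key : ∀ a r, G.Adj (Equiv.swap p q a) r ↔ G.Adj a r := by
    intro a r
    rw [Equiv.swap_apply_def]
    split_ifs with h1 h2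
    · rw [h1]; exact (h r).symm
    · rw [h2]; exact h r
    · exact Iff.rfl
  rw [key, G.adj_comm, key, G.adj_comm]
  exact hab

theorem twin {V : Type} [Fintype V] (X : SimpleGraph V)
    (h : NoQuantumSymmetry (dir X X)) : TwinFree X := by
  classical
  intro x y hxy
  by_contra hne
  refine qsn_key (dir X X) (Equiv.swap (x, x) (y, x)) (Equiv.swap (x, y) (y, y))
    (fun z => Equiv.swap_apply_self _ _ z) (fun z => Equiv.swap_apply_self _ _ z)
    (fun a b hab => swap_adj _ _ _ (fun r => ?_) a b hab)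
    (fun a b hab => swap_adj _ _ _ (fun r => ?_) a b hab) ?_ (x, x) (x, y) ?_ ?_ h
  · exact and_congr (hxy r.1) Iff.rfl
  · exact and_congr (hxy r.1) Iff.rfl
  · rintro ⟨a, b⟩
    by_cases hb : b = x
    · right
      refine Equiv.swap_apply_of_ne_of_ne ?_ ?_
      · intro hh
        exact hne (hb.symm.trans (Prod.ext_iff.1 hh).2)
      · intro hh
        exact hne (hb.symm.trans (Prod.ext_iff.1 hh).2)
    · left
      refine Equiv.swap_apply_of_ne_of_ne ?_ ?_
      · intro hh
        exact hb (Prod.ext_iff.1 hh).2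
      · intro hh
        exact hb (Prod.ext_iff.1 hh).2
  · rw [Equiv.swap_apply_left]
    intro hh
    exact hne (Prod.ext_iff.1 hh).1.symm
  · rw [Equiv.swap_apply_left]
    intro hh
    exact hne (Prod.ext_iff.1 hh).1.symm

theorem color {V : Type} [Fintype V] (X : SimpleGraph V) (h3 : 3 ≤ Fintype.card V)
    (hX : X.Connected) (h : NoQuantumSymmetry (dir X X)) : ¬ X.Colorable 2 := by
  classical
  rintro ⟨c⟩
  have hc : ∀ x x', X.Adj x x' → (c x : Fin 2) ≠ c x' := fun x x' hx => c.valid hx
  have hfin : ∀ i j k l : Fin 2, i ≠ k → j ≠ l → (i = j ↔ k = l) := by decide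
  obtain ⟨x, y, hxy, hcxy⟩ := Fintype.exists_ne_map_eq_of_card_lt (fun v => (c v : Fin 2))
    (by rw [Fintype.card_fin]; omega)
  obtain ⟨z, w, hzw⟩ : ∃ z w, X.Adj z w := by
    obtain ⟨p⟩ := hX.preconnected x y
    cases p with
    | nil => exact absurd rfl hxy
    | cons hh _ => exact ⟨_, _, hh⟩
  refine qsn_key (dir X X) (qsnFlip (fun a b => (c a : Fin 2) = c b))
    (qsnFlip (fun a b => (c a : Fin 2) ≠ c b)) (qsnFlip_inv _ ?_) (qsnFlip_inv _ ?_)
    (fun p q => flip_adj X _ ?_ p q) (fun p q => flip_adj X _ ?_ p q) ?_ (x, y) (z, w) ?_ ?_ h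
  · intro a b hab
    exact hab.symm
  · intro a b hab
    exact hab.symm
  · intro a a' b b' ha hb hs
    exact (hfin _ _ _ _ (hc _ _ ha) (hc _ _ hb)).1 hs
  · intro a a' b b' ha hb hs hs'
    exact hs ((hfin _ _ _ _ (hc _ _ ha) (hc _ _ hb)).2 hs')
  · rintro ⟨a, b⟩
    by_cases hab : (c a : Fin 2) = c b
    · right
      exact qsnFlip_neg _ a b (fun hh => hh hab)
    · left
      exact qsnFlip_neg _ a b hab
  · rw [qsnFlip_pos _ x y hcxy]
    intro hh
    exact hxy (Prod.ext_iff.1 hh).2
  · rw [qsnFlip_pos _ z w (hc z w hzw)]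
    intro hh
    exact hzw.ne (Prod.ext_iff.1 hh).2

end Haux

theorem t_H : St_H := by
  intro V _ X h3 h
  have : Nonempty V := Fintype.card_pos_iff.1 (by omega)
  have hX := Haux.connected X h
  exact ⟨hX, Haux.color X h3 hX h, Haux.twin X h, Haux.self X h⟩

end Pool.Agent.H767R3.DS
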