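import Pool.Agent.H767R3.DS.Q

set_option autoImplicit false

namespace Pool.Agent.H767R3.DS

open Pool.Agent.H741.QS

theorem t_I : St_I := by
  intro V _ S hp h3
  constructor
  · intro V1 V2 _ _ G1 G2 h1 h2
    refine ⟨fun e => ?_⟩
    have hc : Fintype.card V = Fintype.card V1 * Fintype.card V2 := by
      rw [← Fintype.card_prod]
      exact Fintype.card_congr e.toEquiv
    rw [hc] at hp
    exact Nat.not_prime_mul (by omega) (by omega) hp
  · intro W _ Y
    refine ⟨fun e => ?_⟩
    have hc : Fintype.card V = 2 * Fintype.card W := by
      have h : Fintype.card V = Fintype.card (Bool × W) := Fintype.card_congr e.toEquiv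
      rw [h, Fintype.card_prod, Fintype.card_bool]
    have hW : Fintype.card W ≠ 1 := by
      intro h
      omega
    rw [hc] at hp
    exact Nat.not_prime_mul (by omega) hW hp

end Pool.Agent.H767R3.DS
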