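import Pool.Agent.H767R3.DS.Q

set_option autoImplicit false

namespace Pool.Agent.H767R3.DS

open Pool.Agent.H741.QS

namespace Jaux

open Classical in
theorem zero_eq {V : Type} [Fintype V] (X : SimpleGraph V) (a b : V × V) :
    (X.adjMatrix ℝ ^ 0) a.1 b.1 * (X.adjMatrix ℝ ^ 0) a.2 b.2 = if a = b then (1 : ℝ) else 0 := by
  rw [pow_zero, Matrix.one_apply, Matrix.one_apply]
  by_cases h1 : a.1 = b.1 <;> by_cases h2 : a.2 = b.2
  · rw [if_pos h1, if_pos h2, if_pos (Prod.ext h1 h2), mul_one]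
  · rw [if_neg h2, mul_zero, if_neg fun h => h2 (congrArg Prod.snd h)]
  · rw [if_neg h1, zero_mul, if_neg fun h => h1 (congrArg Prod.fst h)]
  · rw [if_neg h1, zero_mul, if_neg fun h => h1 (congrArg Prod.fst h)]

open Classical in
theorem succ_eq {V : Type} [Fintype V] (X : SimpleGraph V) (m : ℕ) (a b : V × V) :
    (X.adjMatrix ℝ ^ (m + 1)) a.1 b.1 * (X.adjMatrix ℝ ^ (m + 1)) a.2 b.2 =
      ∑ c : V × V, ((X.adjMatrix ℝ ^ m) a.1 c.1 * (X.adjMatrix ℝ ^ m) a.2 c.2) *
        (if (dir X X).Adj c b then (1 : ℝ) else 0) := by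
  rw [pow_succ, Matrix.mul_apply, Matrix.mul_apply, Finset.sum_mul_sum, Fintype.sum_prod_type]
  refine Finset.sum_congr rfl fun c _ => Finset.sum_congr rfl fun d _ => ?_
  rw [SimpleGraph.adjMatrix_apply, SimpleGraph.adjMatrix_apply]
  have h : (dir X X).Adj (c, d) b ↔ X.Adj c b.1 ∧ X.Adj d b.2 := Iff.rfl
  by_cases h1 : X.Adj c b.1 <;> by_cases h2 : X.Adj d b.2
  · rw [if_pos h1, if_pos h2, if_pos (h.2 ⟨h1, h2⟩)]
    ring
  · rw [if_neg h2, if_neg fun h' => h2 (h.1 h').2]
    ring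
  · rw [if_neg h1, if_neg fun h' => h1 (h.1 h').1]
    ring
  · rw [if_neg h1, if_neg fun h' => h1 (h.1 h').1]
    ring

end Jaux

theorem t_J : St_J := by
  classical
  intro V _ X A _ u h m
  induction m with
  | zero =>
    intro a b w v hne
    apply h.pres_eq
    intro hiff
    apply hne
    simp only [Jaux.zero_eq, hiff]
  | succ m ih =>
    have h1 := QIso.Pres.mul h ih h.pres_adj
    intro a b w v hne
    apply h1 a b w v
    intro h2
    apply hne
    simp only [Jaux.succ_eq]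
    exact h2

end Pool.Agent.H767R3.DS
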