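import Pool.Agent.H767R3.DS.Q

set_option autoImplicit false

namespace Pool.Agent.H767R3.DS

open Pool.Agent.H741.QS

theorem t_L (hD : St_D) : St_L := by
  intro W _ X M A _ u h hM hP
  obtain ⟨s, hs⟩ := hD W M hM
  have hP1 : QIso.Pres u (fun a b => ∑ z, (M a z) ^ s * (M z b) ^ s)
      (fun a b => ∑ z, (M a z) ^ s * (M z b) ^ s) :=
    QIso.Pres.mul h (QIso.Pres.comp hP (fun x => x ^ s)) (QIso.Pres.comp hP (fun x => x ^ s))
  refine ⟨h.star_eq, h.idem, h.rowOrth, h.colOrth, h.rowSum, h.colSum, ?_⟩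
  intro a b w v hn
  by_contra hne
  have e1 : a = b ↔ w = v := by
    by_contra hc
    exact hne (h.pres_eq hc)
  have e2 : M a b = M w v := by
    by_contra hc
    exact hne (hP a b w v hc)
  have e3 : ∑ z, (M a z) ^ s * (M z b) ^ s = ∑ z, (M w z) ^ s * (M z v) ^ s := by
    by_contra hc
    exact hne (hP1 a b w v hc)
  apply hn
  by_cases hab : a = b
  · have hwv := e1.1 hab
    subst hab
    subst hwv
    exact ⟨fun h => absurd rfl h.1, fun h => absurd rfl h.1⟩
  · have hwv : w ≠ v := fun h => hab (e1.2 h)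
    rw [hs a b hab, hs w v hwv, e3, e2]

end Pool.Agent.H767R3.DS
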