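import Pool.Agent.H767R3.DS.Main
import Pool.Agent.H767R3.DS.T_A
import Pool.Agent.H767R3.DS.T_B
import Pool.Agent.H767R3.DS.T_C
import Pool.Agent.H767R3.DS.T_D
import Pool.Agent.H767R3.DS.T_E
import Pool.Agent.H767R3.DS.T_F
import Pool.Agent.H767R3.DS.T_G
import Pool.Agent.H767R3.DS.T_H
import Pool.Agent.H767R3.DS.T_I
import Pool.Agent.H767R3.DS.T_J
import Pool.Agent.H767R3.DS.T_L

set_option autoImplicit false

namespace Pool.Agent.H767R3.DS

open Pool.Agent.H741.QS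

theorem mainPrime (V : Type) [Fintype V] (X : SimpleGraph V)
    (hp : (Fintype.card V).Prime) (h3 : 3 ≤ Fintype.card V) :
    NoQuantumSymmetry (dir X X) ↔
      X.Connected ∧ ¬ X.Colorable 2 ∧ TwinFree X ∧ NoQuantumSymmetry X :=
  main t_A t_B t_C t_E (t_G t_F) t_H t_I t_J (t_L t_D) V X hp h3

end Pool.Agent.H767R3.DS
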