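import Pool.Agent.H767R3.DS.W

set_option autoImplicit false

namespace Pool.Agent.H767R3.DS

open Pool.Agent.H741.QS

namespace Uaux

section abs

variable {X : Type} [Fintype X] [DecidableEq X] {A : Type} [Ring A] {U : X → X → A} {e : A}

theorem mulAB (hid : ∀ a w, U a w * U a w = U a w) (hrow : ∀ a w w', w ≠ w' → U a w * U a w' = 0)
    (a : X) (S T : Finset X) :
    (∑ x ∈ S, U a x) * (∑ y ∈ T, U a y) = ∑ x ∈ S ∩ T, U a x := by
  rw [Finset.sum_mul_sum]
  have h1 : ∀ x ∈ S, ∑ y ∈ T, U a x * U a y = if x ∈ T then U a x else 0 := by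
    intro x _
    by_cases hx : x ∈ T
    · rw [if_pos hx, Finset.sum_eq_single x]
      · exact hid a x
      · intro y _ hy
        exact hrow a x y (Ne.symm hy)
      · intro h; exact absurd hx h
    · rw [if_neg hx]
      refine Finset.sum_eq_zero fun y hy => hrow a x y ?_
      rintro rfl
      exact hx hy
  rw [Finset.sum_congr rfl h1, ← Finset.sum_filter, Finset.filter_mem_eq_inter]

theorem commAB (hid : ∀ a w, U a w * U a w = U a w) (hrow : ∀ a w w', w ≠ w' → U a w * U a w' = 0)
    (a : X) (S T : Finset X) :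
    (∑ x ∈ S, U a x) * (∑ y ∈ T, U a y) = (∑ y ∈ T, U a y) * (∑ x ∈ S, U a x) := by
  rw [mulAB hid hrow, mulAB hid hrow, Finset.inter_comm]

theorem sumEq (hsum : ∀ a, ∑ w, U a w = e) (he1 : ∀ a w, U a w * e = U a w)
    (he2 : ∀ a w, e * U a w = U a w) (a c : X) (S : Finset X)
    (h1 : ∀ x ∈ S, ∀ y ∉ S, U a x * U c y = 0) (h2 : ∀ x ∉ S, ∀ y ∈ S, U a x * U c y = 0) :
    ∑ x ∈ S, U a x = ∑ y ∈ S, U c y := by
  have e1 : ∑ x ∈ S, U a x = ∑ x ∈ S, ∑ y ∈ S, U a x * U c y := by
    refine Finset.sum_congr rfl fun x hx => ?_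
    have h3 : U a x = ∑ y, U a x * U c y := by
      rw [← Finset.mul_sum, hsum, he1]
    refine h3.trans ?_
    exact (Finset.sum_subset (Finset.subset_univ S) (fun y _ hy => h1 x hx y hy)).symm
  have e2 : ∑ y ∈ S, U c y = ∑ x ∈ S, ∑ y ∈ S, U a x * U c y := by
    rw [Finset.sum_comm]
    refine Finset.sum_congr rfl fun y hy => ?_
    have h3 : U c y = ∑ x, U a x * U c y := by
      rw [← Finset.sum_mul, hsum, he2]
    refine h3.trans ?_
    exact (Finset.sum_subset (Finset.subset_univ S) (fun x _ hx => h2 x hx y hy)).symm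
  rw [e1, e2]

end abs

section path

variable {J : Type} [DecidableEq J] {P : J → Type} {G : ∀ k, SimpleGraph (P k)}

theorem walk_one (hG : ∀ k, (G k).Connected) (k j : J) (hj : j ≠ k) (a : ∀ k, P k) (y : P j) :
    Relation.ReflTransGen (fun x z : ∀ k, P k => ∃ j, j ≠ k ∧ DirAdj G j x z) a
      (Function.update a j y) := by
  obtain ⟨p⟩ := (hG j).preconnected (a j) y
  have key : ∀ (s t : P j), (G j).Walk s t →
      Relation.ReflTransGen (fun x z : ∀ k, P k => ∃ j, j ≠ k ∧ DirAdj G j x z)
        (Function.update a j s) (Function.update a j t) := by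
    intro s t p
    induction p with
    | nil => exact Relation.ReflTransGen.refl
    | cons h _ ih =>
      refine Relation.ReflTransGen.head ?_ ih
      refine ⟨j, hj, ?_, ?_⟩
      · simpa using h
      · intro l hl
        rw [Function.update_of_ne hl, Function.update_of_ne hl]
  have h := key (a j) y p
  rwa [Function.update_eq_self] at h

theorem path_all (hG : ∀ k, (G k).Connected) (k : J) (S : Finset J) (hk : k ∉ S) :
    ∀ a b : ∀ k, P k, (∀ j, j ∉ S → a j = b j) →
      Relation.ReflTransGen (fun x z : ∀ k, P k => ∃ j, j ≠ k ∧ DirAdj G j x z) a b := by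
  induction S using Finset.induction_on with
  | empty =>
    intro a b h
    have : a = b := funext fun j => h j (Finset.notMem_empty j)
    rw [this]
  | insert j S _ ih =>
    intro a b h
    have hjk : j ≠ k := by
      rintro rfl
      exact hk (Finset.mem_insert_self _ _)
    refine (walk_one hG k j hjk a (b j)).trans ?_
    refine ih (fun hkS => hk (Finset.mem_insert_of_mem hkS)) _ _ fun l hl => ?_
    by_cases hlj : l = j
    · subst hlj
      simp
    · rw [Function.update_of_ne hlj]
      exact h l (by simp [hlj, hl])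

end path

end Uaux

open Uaux

open Classical in
theorem t_U : St_U := by
  intro J _ _ P _ G hG A _ u H hq hH e he0 hes hee hec σ hσ hdir C hC a b a' b' hab hab'
  -- absorb e
  set U : (∀ k, P k) → (∀ k, P k) → A := fun x y => u x y * e with hU
  have hUdef : ∀ x y, U x y = u x y * e := fun x y => rfl
  have hmul : ∀ x y z w, U x y * U z w = u x y * u z w * e := by
    intro x y z w
    rw [hUdef, hUdef, mul_assoc, ← mul_assoc e, hec, mul_assoc (u z w), hee, ← mul_assoc]
  have hid : ∀ x w, U x w * U x w = U x w := by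
    intro x w
    rw [hmul, hq.idem]
  have hrow : ∀ x w w', w ≠ w' → U x w * U x w' = 0 := by
    intro x w w' h
    rw [hmul, hq.rowOrth x w w' h, zero_mul]
  have hsum : ∀ x, ∑ w, U x w = e := by
    intro x
    simp only [hUdef]
    rw [← Finset.sum_mul, hq.rowSum, one_mul]
  have he1 : ∀ x w, U x w * e = U x w := by
    intro x w
    rw [hUdef, mul_assoc, hee]
  have he2 : ∀ x w, e * U x w = U x w := by
    intro x w
    rw [hUdef, ← mul_assoc, hec, mul_assoc, hee]
  have hne : ∀ x y z w, U x y * U z w ≠ 0 → u x y * u z w ≠ 0 := by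
    intro x y z w h h0
    exact h (by rw [hmul, h0, zero_mul])
  have hHadj : ∀ x y z w, U x y * U z w ≠ 0 → (H.Adj x z ↔ H.Adj y w) := by
    intro x y z w h
    by_contra hn
    exact hne x y z w h (hH.adj x z y w hn)
  -- STAR
  have hstep : ∀ j x z y w, DirAdj G j x z → U x y * U z w ≠ 0 → DirAdj G (σ j) y w := by
    intro j x z y w h h0
    by_contra hn
    exact h0 (by rw [hmul, hdir j x z y w h hn])
  have hstar1 : ∀ (k : J) (x z : ∀ k, P k),
      Relation.ReflTransGen (fun x z : ∀ k, P k => ∃ j, j ≠ k ∧ DirAdj G j x z) x z →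
      ∀ w v, U x w * U z v ≠ 0 → w (σ k) = v (σ k) := by
    intro k x z hxz
    induction hxz with
    | refl =>
      intro w v h
      by_contra hn
      refine h (hrow x w v ?_)
      rintro rfl
      exact hn rfl
    | @tail c z hxc hcz ih =>
      intro w v h
      have h1 : U x w * U z v = ∑ y, U x w * U c y * U z v := by
        rw [← Finset.sum_mul, ← Finset.mul_sum, hsum, he1]
      have h2 : ∃ y, U x w * U c y * U z v ≠ 0 := by
        by_contra hn
        push Not at hn
        exact h (by rw [h1, Finset.sum_eq_zero fun y _ => hn y])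
      obtain ⟨y, hy⟩ := h2
      have h3 : U x w * U c y ≠ 0 := by
        intro h0; exact hy (by rw [h0, zero_mul])
      have h4 : U c y * U z v ≠ 0 := by
        intro h0; exact hy (by rw [mul_assoc, h0, mul_zero])
      obtain ⟨j, hjk, hj⟩ := hcz
      have h5 := (hstep j c z y v hj h4).2 (σ k) (fun h => hjk (hσ.1 h).symm)
      rw [ih w y h3, h5]
  have hstar : ∀ (k : J) (x z w v : ∀ k, P k), x k = z k → U x w * U z v ≠ 0 →
      w (σ k) = v (σ k) := by
    intro k x z w v hk h
    refine hstar1 k x z ?_ w v h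
    refine path_all hG k (Finset.univ.erase k) (by simp) x z ?_
    intro j hj
    have : j = k := by
      by_contra hn
      exact hj (by simp [hn])
    rw [this, hk]
  -- the elements P D x w
  set F : Set J → (∀ k, P k) → Finset (∀ k, P k) := fun D w =>
    Finset.univ.filter (fun x => ∀ l ∈ D, x l = w l) with hF
  have hFmem : ∀ D w x, x ∈ F D w ↔ ∀ l ∈ D, x l = w l := by
    intro D w x
    simp [hF]
  set p : Set J → (∀ k, P k) → (∀ k, P k) → A := fun D x w => ∑ y ∈ F D w, U x y with hp
  have hpw : ∀ D x w w', (∀ l ∈ D, w l = w' l) → p D x w = p D x w' := by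
    intro D x w w' h
    have : F D w = F D w' := by
      ext y
      rw [hFmem, hFmem]
      exact ⟨fun h' l hl => (h' l hl).trans (h l hl), fun h' l hl => (h' l hl).trans (h l hl).symm⟩
    show ∑ y ∈ F D w, U x y = ∑ y ∈ F D w', U x y
    rw [this]
  have hpx : ∀ D x z w, (∀ k, σ k ∈ D → x k = z k) → p D x w = p D z w := by
    intro D x z w h
    refine sumEq hsum he1 he2 x z (F D w) ?_ ?_
    · intro y hy v hv
      rw [hFmem] at hy hv
      push Not at hv
      obtain ⟨l, hl, hvl⟩ := hv
      obtain ⟨k, rfl⟩ := hσ.2 l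
      by_contra hn
      have h1 := hstar k x z y v (h k hl) hn
      exact hvl (by rw [← h1, hy _ hl])
    · intro y hy v hv
      rw [hFmem] at hy hv
      push Not at hy
      obtain ⟨l, hl, hvl⟩ := hy
      obtain ⟨k, rfl⟩ := hσ.2 l
      by_contra hn
      have h1 := hstar k x z y v (h k hl) hn
      exact hvl (by rw [h1, hv _ hl])
  have hpp : ∀ x w, p C x w * p Cᶜ x w = U x w := by
    intro x w
    show (∑ y ∈ F C w, U x y) * (∑ y ∈ F Cᶜ w, U x y) = U x w
    rw [mulAB hid hrow]
    have : F C w ∩ F Cᶜ w = {w} := by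
      ext y
      rw [Finset.mem_inter, hFmem, hFmem, Finset.mem_singleton]
      constructor
      · rintro ⟨h1, h2⟩
        funext l
        by_cases hl : l ∈ C
        · exact h1 l hl
        · exact h2 l hl
      · rintro rfl
        exact ⟨fun _ _ => rfl, fun _ _ => rfl⟩
    rw [this, Finset.sum_singleton]
  have hcomm : ∀ x w z v, p C x w * p Cᶜ z v = p Cᶜ z v * p C x w := by
    intro x w z v
    have h1 : p C x w = p C (mix (σ ⁻¹' C) x z) w := by
      refine hpx C _ _ w fun k hk => ?_
      unfold mix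
      rw [if_pos (show k ∈ σ ⁻¹' C from hk)]
    have h2 : p Cᶜ z v = p Cᶜ (mix (σ ⁻¹' C) x z) v := by
      refine hpx Cᶜ _ _ v fun k hk => ?_
      unfold mix
      rw [if_neg (show ¬ k ∈ σ ⁻¹' C from hk)]
    rw [h1, h2]
    exact commAB hid hrow _ _ _
  have hmix : ∀ x w z v, p C x w * p Cᶜ z v = U (mix (σ ⁻¹' C) x z) (mix C w v) := by
    intro x w z v
    have h1 : p C x w = p C (mix (σ ⁻¹' C) x z) (mix C w v) := by
      rw [hpw C x w (mix C w v) (fun l hl => by unfold mix; rw [if_pos hl])]
      refine hpx C _ _ _ fun k hk => ?_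
      unfold mix
      rw [if_pos (show k ∈ σ ⁻¹' C from hk)]
    have h2 : p Cᶜ z v = p Cᶜ (mix (σ ⁻¹' C) x z) (mix C w v) := by
      rw [hpw Cᶜ z v (mix C w v) (fun l hl => by unfold mix; rw [if_neg hl])]
      refine hpx Cᶜ _ _ _ fun k hk => ?_
      unfold mix
      rw [if_neg (show ¬ k ∈ σ ⁻¹' C from hk)]
    rw [h1, h2]
    exact hpp _ _
  -- a nonzero term
  have hex : ∀ (z : A) (x : ∀ k, P k), z ≠ 0 → z * e = z → ∃ w, z * U x w ≠ 0 := by
    intro z x hz hze
    by_contra hn
    push Not at hn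
    apply hz
    rw [← hze, ← hsum x, Finset.mul_sum]
    exact Finset.sum_eq_zero fun w _ => hn w
  obtain ⟨w, hw0⟩ := hex e a he0 hee
  have hw1 : U a w ≠ 0 := by rwa [he2] at hw0
  obtain ⟨v, hv1⟩ := hex (U a w) b hw1 (he1 _ _)
  obtain ⟨w', hw'1⟩ := hex (U a w * U b v) a' hv1 (by rw [mul_assoc, he1])
  obtain ⟨v', hT⟩ := hex (U a w * U b v * U a' w') b' hw'1 (by rw [mul_assoc, he1])
  have hwv : H.Adj w v := by
    refine (hHadj a w b v ?_).1 hab
    intro h0
    exact hT (by rw [h0, zero_mul, zero_mul])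
  have hwv' : H.Adj w' v' := by
    refine (hHadj a' w' b' v' ?_).1 hab'
    intro h0
    exact hT (by rw [mul_assoc, h0, mul_zero])
  have hspl := hC w v w' v' hwv hwv'
  refine (hHadj (mix (σ ⁻¹' C) a a') (mix C w w') (mix (σ ⁻¹' C) b b') (mix C v v') ?_).2 hspl
  rw [← hmix, ← hmix]
  intro h0
  apply hT
  have c' : ∀ (x w z v : ∀ k, P k) (y : A), p C x w * (p Cᶜ z v * y) =
      p Cᶜ z v * (p C x w * y) := by
    intro x w z v y
    rw [← mul_assoc, hcomm, mul_assoc]
  have hT' : U a w * U b v * U a' w' * U b' v' = p Cᶜ a w * p Cᶜ b v *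
      (p C a w * p Cᶜ a' w' * (p C b v * p Cᶜ b' v')) * (p C a' w' * p C b' v') := by
    rw [← hpp a w, ← hpp b v, ← hpp a' w', ← hpp b' v']
    simp only [mul_assoc, hcomm, c']
  rw [hT', h0, mul_zero, zero_mul]

end Pool.Agent.H767R3.DS
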