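import Pool.Agent.H767R3.DS.W

set_option autoImplicit false

namespace Pool.Agent.H767R3.DS

open Pool.Agent.H741.QS

namespace Vaux

theorem e1 {ι : Type} {P : ι → Type} (κ : ι → Bool) (a : ∀ k : ι × Bool, P k.1) :
    (fun i => a (i, κ i)) =
      mix (P := P) {i | κ i = false} (fun i => a (i, false)) (fun i => a (i, true)) := by
  funext i
  unfold mix
  by_cases h : κ i = false
  · rw [if_pos (by exact h), h]
  · have h' : κ i = true := by simpa using h
    rw [if_neg (by exact h), h']

theorem e2 {ι : Type} {P : ι → Type} (κ : ι → Bool) (a : ∀ k : ι × Bool, P k.1) :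
    (fun i => a (i, !κ i)) =
      mix (P := P) {i | κ i = false} (fun i => a (i, true)) (fun i => a (i, false)) := by
  funext i
  unfold mix
  by_cases h : κ i = false
  · rw [if_pos (by exact h), h]
    rfl
  · have h' : κ i = true := by simpa using h
    rw [if_neg (by exact h), h']
    rfl

theorem mm {J : Type} {P : J → Type} (C : Set J) (x y : ∀ k, P k) :
    mix C (mix C x y) (mix C y x) = x := by
  funext k
  unfold mix
  by_cases h : k ∈ C
  · rw [if_pos h, if_pos h]
  · rw [if_neg h, if_neg h]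

end Vaux

theorem t_V : St_V := by
  intro ι P X κ hS a b
  rw [Vaux.e1 κ a, Vaux.e1 κ b, Vaux.e2 κ a, Vaux.e2 κ b]
  constructor
  · rintro ⟨h1, h2⟩
    exact ⟨hS _ _ _ _ h1 h2, hS _ _ _ _ h2 h1⟩
  · rintro ⟨h1, h2⟩
    have h3 := hS _ _ _ _ h1 h2
    have h4 := hS _ _ _ _ h2 h1
    rw [Vaux.mm, Vaux.mm] at h3 h4
    exact ⟨h3, h4⟩

end Pool.Agent.H767R3.DS
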