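import Pool.Agent.H767R3.DS.W

set_option autoImplicit false

/-! Y: splittings of the square (helper63) -/

namespace Pool.Agent.H767R3.DS

open Pool.Agent.H741.QS

namespace Yaux

theorem mix_pos {J : Type} {P : J → Type} {C : Set J} {x y : ∀ k, P k} {k : J} (h : k ∈ C) :
    mix C x y k = x k := if_pos h

theorem mix_neg {J : Type} {P : J → Type} {C : Set J} {x y : ∀ k, P k} {k : J} (h : k ∉ C) :
    mix C x y k = y k := if_neg h

theorem mix_univ {J : Type} {P : J → Type} (x y : ∀ k, P k) : mix Set.univ x y = x := by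
  funext k
  exact mix_pos (Set.mem_univ k)

theorem mix_compl {J : Type} {P : J → Type} (C : Set J) (x y : ∀ k, P k) :
    mix Cᶜ x y = mix C y x := by
  funext k
  by_cases h : k ∈ C
  · have h2 : k ∉ Cᶜ := fun h' => h' h
    rw [mix_pos h, mix_neg h2]
  · rw [mix_neg h, mix_pos (show k ∈ Cᶜ from h)]

theorem mix_inter {J : Type} {P : J → Type} (C D : Set J) (x y : ∀ k, P k) :
    mix (C ∩ D) x y = mix C (mix D x y) y := by
  funext k
  by_cases h : k ∈ C
  · rw [mix_pos h]
    by_cases h2 : k ∈ D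
    · rw [mix_pos h2, mix_pos (Set.mem_inter h h2)]
    · have h3 : k ∉ C ∩ D := fun h' => h2 h'.2
      rw [mix_neg h2, mix_neg h3]
  · have h3 : k ∉ C ∩ D := fun h' => h h'.1
    rw [mix_neg h, mix_neg h3]

theorem mix_slice {ι : Type} {P : ι → Type} (C : Set (ι × Bool)) (c : Bool)
    (x y : ∀ k : ι × Bool, P k.1) :
    (fun i => mix C x y (i, c)) = mix {i | (i, c) ∈ C} (fun i => x (i, c)) (fun i => y (i, c)) := by
  funext i
  by_cases h : (i, c) ∈ C
  · rw [mix_pos h, mix_pos (show i ∈ {i | (i, c) ∈ C} from h)]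
  · rw [mix_neg h, mix_neg (show i ∉ {i | (i, c) ∈ C} from h)]

end Yaux

open Yaux in
theorem t_Y : St_Y := by
  intro ι P X
  refine ⟨?_, ?_, ?_, ?_⟩
  · intro a b a' b' h _
    rw [mix_univ, mix_univ]
    exact h
  · intro C hC a b a' b' h h'
    rw [mix_compl, mix_compl]
    exact hC a' b' a b h' h
  · intro C D hC hD a b a' b' h h'
    rw [mix_inter, mix_inter]
    exact hC _ _ _ _ (hD a b a' b' h h') h'
  · rintro ⟨c, d, hcd⟩ C
    constructor
    · intro hS
      constructor
      · intro a b a' b' h h'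
        have h1 := (hS (fun k => cond k.2 (c k.1) (a k.1)) (fun k => cond k.2 (d k.1) (b k.1))
          (fun k => cond k.2 (c k.1) (a' k.1)) (fun k => cond k.2 (d k.1) (b' k.1))
          ⟨h, hcd⟩ ⟨h', hcd⟩).1
        rw [mix_slice, mix_slice] at h1
        exact h1
      · intro a b a' b' h h'
        have h1 := (hS (fun k => cond k.2 (a k.1) (c k.1)) (fun k => cond k.2 (b k.1) (d k.1))
          (fun k => cond k.2 (a' k.1) (c k.1)) (fun k => cond k.2 (b' k.1) (d k.1))
          ⟨hcd, h⟩ ⟨hcd, h'⟩).2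
        rw [mix_slice, mix_slice] at h1
        exact h1
    · rintro ⟨h1, h2⟩ a b a' b' h h'
      constructor
      · rw [mix_slice, mix_slice]
        exact h1 _ _ _ _ h.1 h'.1
      · rw [mix_slice, mix_slice]
        exact h2 _ _ _ _ h.2 h'.2

end Pool.Agent.H767R3.DS
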