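import Pool.Agent.H767R3.DS.Main2
import Pool.Agent.H767R3.DS.T_A
import Pool.Agent.H767R3.DS.T_B
import Pool.Agent.H767R3.DS.T_C
import Pool.Agent.H767R3.DS.T_D
import Pool.Agent.H767R3.DS.T_E
import Pool.Agent.H767R3.DS.T_F
import Pool.Agent.H767R3.DS.T_H
import Pool.Agent.H767R3.DS.T_J
import Pool.Agent.H767R3.DS.T_L
import Pool.Agent.H767R3.DS.T_U
import Pool.Agent.H767R3.DS.T_V
import Pool.Agent.H767R3.DS.T_W
import Pool.Agent.H767R3.DS.T_Y
import Pool.Agent.H767R3.DS.T_Z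

set_option autoImplicit false

namespace Pool.Agent.H767R3.DS

open Pool.Agent.H741.QS

theorem mainOdd (V : Type) [Fintype V] (X : SimpleGraph V) (hodd : Odd (Fintype.card V)) :
    NoQuantumSymmetry (dir X X) ↔ (Fintype.card V = 1 ∨
      (X.Connected ∧ ¬ X.Colorable 2 ∧ TwinFree X ∧ NoQuantumSymmetry X)) :=
  main2 t_A t_B t_C t_E (t_W t_F t_U t_Z t_Y t_V) t_H t_J (t_L t_D) V X hodd

end Pool.Agent.H767R3.DS
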