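import Pool.Agent.H767R3.DS.Q

set_option autoImplicit false

namespace Pool.Agent.H767R3.DS

open Pool.Agent.H741.QS

theorem t_M (V : Type) [Fintype V] (X : SimpleGraph V) (h2 : Fintype.card V = 2) :
    ¬ NoQuantumSymmetry (dir X X) := by
  classical
  obtain ⟨c, d, hcd, huniv⟩ := Finset.card_eq_two.1 (show (Finset.univ : Finset V).card = 2 by
    rw [Finset.card_univ, h2])
  have hall : ∀ x : V, x = c ∨ x = d := by
    intro x
    have : x ∈ (Finset.univ : Finset V) := Finset.mem_univ x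
    rw [huniv] at this
    simpa using this
  have hdc : d ≠ c := hcd.symm
  have hadj : ∀ p q : V × V, (dir X X).Adj p q ↔ (p.1 ≠ q.1 ∧ p.2 ≠ q.2 ∧ X.Adj c d) := by
    rintro ⟨a, b⟩ ⟨a', b'⟩
    have hX : ∀ x y : V, X.Adj x y ↔ x ≠ y ∧ X.Adj c d := by
      intro x y
      rcases hall x with rfl | rfl <;> rcases hall y with rfl | rfl
      · simp
      · simp [hcd]
      · simp [hdc, X.adj_comm]
      · simp
    show X.Adj a a' ∧ X.Adj b b' ↔ _
    rw [hX a a', hX b b']
    tauto
  refine qsn_key (dir X X) (Equiv.swap (c, c) (d, d)) (Equiv.swap (c, d) (d, c))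
    (fun x => Equiv.swap_apply_self _ _ x) (fun x => Equiv.swap_apply_self _ _ x)
    ?_ ?_ ?_ (c, c) (c, d) ?_ ?_
  · rintro ⟨a, b⟩ ⟨a', b'⟩ h
    rw [hadj] at h ⊢
    obtain ⟨h1, h2, h3⟩ := h
    rcases hall a with rfl | rfl <;> rcases hall b with rfl | rfl <;>
      rcases hall a' with rfl | rfl <;> rcases hall b' with rfl | rfl <;>
      simp_all [Equiv.swap_apply_def]
  · rintro ⟨a, b⟩ ⟨a', b'⟩ h
    rw [hadj] at h ⊢
    obtain ⟨h1, h2, h3⟩ := h
    rcases hall a with rfl | rfl <;> rcases hall b with rfl | rfl <;>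
      rcases hall a' with rfl | rfl <;> rcases hall b' with rfl | rfl <;>
      simp_all [Equiv.swap_apply_def]
  · rintro ⟨a, b⟩
    rcases hall a with rfl | rfl <;> rcases hall b with rfl | rfl <;>
      simp_all [Equiv.swap_apply_def]
  · simp [hcd, hdc]
  · simp [hcd, hdc]

end Pool.Agent.H767R3.DS
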