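import Pool.Agent.H767R3.DS.All2
import Pool.Agent.H767R3.DS.T_M

set_option autoImplicit false

namespace Pool.Agent.H767R3.DS

open Pool.Agent.H741.QS

theorem necAll (V : Type) [Fintype V] [Nonempty V] (X : SimpleGraph V)
    (h : NoQuantumSymmetry (dir X X)) : Fintype.card V = 1 ∨
      (X.Connected ∧ ¬ X.Colorable 2 ∧ TwinFree X ∧ NoQuantumSymmetry X) := by
  have h0 : 0 < Fintype.card V := Fintype.card_pos
  by_cases h1 : Fintype.card V = 1
  · exact Or.inl h1
  by_cases h2 : Fintype.card V = 2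
  · exact absurd h (t_M V X h2)
  · exact Or.inr (t_H V X (by omega) h)

open Classical in
theorem suffAll (V : Type) [Fintype V] [Nonempty V] (X : SimpleGraph V)
    (hV : Odd (Fintype.card V) ∨
      ∃ m : ℕ, (∀ a b, 0 < (X.adjMatrix ℝ ^ m) a b) ∧ NoK2 (SG (nk X m)))
    (h : Fintype.card V = 1 ∨
      (X.Connected ∧ ¬ X.Colorable 2 ∧ TwinFree X ∧ NoQuantumSymmetry X)) :
    NoQuantumSymmetry (dir X X) := by
  by_cases h1 : Fintype.card V = 1
  · exact one_noqs V X h1
  rcases h with h | h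
  · exact absurd h h1
  rcases hV with hodd | ⟨m, hm, hK⟩
  · exact (mainOdd V X hodd).2 (Or.inr h)
  · exact suffCore t_B t_C t_E (t_W t_F t_U t_Z t_Y t_V) t_J (t_L t_D) V X m hm hK h1 h.1 h.2.2.1
      h.2.2.2

end Pool.Agent.H767R3.DS
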