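import Mathlib

set_option autoImplicit false

namespace Pool.Agent.H767R3.DS

/-- direct (tensor) product of graphs -/
def dir {V W : Type} (X : SimpleGraph V) (Y : SimpleGraph W) : SimpleGraph (V × W) where
  Adj a b := X.Adj a.1 b.1 ∧ Y.Adj a.2 b.2
  symm := ⟨fun _ _ h => ⟨h.1.symm, h.2.symm⟩⟩
  loopless := ⟨fun a h => X.loopless.irrefl a.1 h.1⟩

/-- distinct vertices have distinct neighbourhoods -/
def TwinFree {V : Type} (X : SimpleGraph V) : Prop :=
  ∀ x y, (∀ z, X.Adj x z ↔ X.Adj y z) → x = y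

structure Ker {V : Type} (N : V → V → ℝ) : Prop where
  symm : ∀ a b, N a b = N b a
  one : ∀ a, N a a = 1
  pos : ∀ a b, 0 < N a b
  lt : ∀ a b, a ≠ b → N a b < 1

/-- product kernel -/
def kk {V : Type} (N : V → V → ℝ) : V × V → V × V → ℝ := fun a b => N a.1 b.1 * N a.2 b.2

/-- graph of indecomposable pairs -/
def SG {V : Type} (N : V → V → ℝ) : SimpleGraph V where
  Adj a b := a ≠ b ∧ (∀ c, c ≠ a → c ≠ b → N a c * N c b < N a b) ∧
    (∀ c, c ≠ a → c ≠ b → N b c * N c a < N b a)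
  symm := ⟨fun _ _ h => ⟨h.1.symm, fun c h1 h2 => h.2.2 c h2 h1, fun c h1 h2 => h.2.1 c h2 h1⟩⟩
  loopless := ⟨fun a h => h.1 rfl⟩

open Classical in
/-- A: powers of a connected non-bipartite graph are eventually positive -/
def St_A : Prop := ∀ (V : Type) [Fintype V] (X : SimpleGraph V), X.Connected → ¬ X.Colorable 2 →
  ∃ m : ℕ, ∀ a b, 0 < (X.adjMatrix ℝ ^ m) a b

open Classical in
/-- B: the normalised kernel -/
def St_B : Prop := ∀ (V : Type) [Fintype V] (X : SimpleGraph V), X.Connected → TwinFree X →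
  ∀ m : ℕ, (∀ a b, 0 < (X.adjMatrix ℝ ^ m) a b) →
    Ker (fun a b => (X.adjMatrix ℝ ^ (2 * m)) a b /
      Real.sqrt ((X.adjMatrix ℝ ^ (2 * m)) a a * (X.adjMatrix ℝ ^ (2 * m)) b b))

/-- C: the graph of indecomposable pairs is connected -/
def St_C : Prop := ∀ (V : Type) [Fintype V] [Nonempty V] (N : V → V → ℝ), Ker N → (SG N).Connected

/-- D: Schur powers see the indecomposable pairs -/
def St_D : Prop := ∀ (V : Type) [Fintype V] (N : V → V → ℝ), Ker N →
  ∃ s : ℕ, ∀ a b, a ≠ b →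
    ((SG N).Adj a b ↔ ∑ z, (N a z) ^ s * (N z b) ^ s < 3 * (N a b) ^ s)

/-- E: the product -/
def St_E : Prop := ∀ (V : Type) (N : V → V → ℝ), Ker N →
  Ker (kk N) ∧ SG (kk N) = SG N □ SG N

end Pool.Agent.H767R3.DS
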