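import Pool.Agent.H767R3.DS.Q

set_option autoImplicit false

namespace Pool.Agent.H767R3.DS

open Pool.Agent.H741.QS

theorem ker_pres {V : Type} [Fintype V] (X : SimpleGraph V) (N : V → V → ℝ)
    {A : Type} [CStarAlgebra A] (u : (V × V) → (V × V) → A) (h : QIso (dir X X) (dir X X) u)
    (K : V → V → ℝ) (hK : ∀ a, 0 < K a a)
    (hN : ∀ a b, N a b = K a b / Real.sqrt (K a a * K b b))
    (hP : QIso.Pres u (fun a b => K a.1 b.1 * K a.2 b.2) (fun a b => K a.1 b.1 * K a.2 b.2)) :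
    QIso.Pres u (kk N) (kk N) := by
  intro a b w v hne
  by_contra hz
  apply hne
  have h1 : u a w ≠ 0 := fun h0 => hz (by rw [h0, zero_mul])
  have h2 : u b v ≠ 0 := fun h0 => hz (by rw [h0, mul_zero])
  have e1 : K a.1 a.1 * K a.2 a.2 = K w.1 w.1 * K w.2 w.2 := by
    by_contra hc
    exact h1 (by have := hP a a w w hc; rwa [h.idem] at this)
  have e2 : K b.1 b.1 * K b.2 b.2 = K v.1 v.1 * K v.2 v.2 := by
    by_contra hc
    exact h2 (by have := hP b b v v hc; rwa [h.idem] at this)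
  have e3 : K a.1 b.1 * K a.2 b.2 = K w.1 v.1 * K w.2 v.2 := by
    by_contra hc
    exact hz (hP a b w v hc)
  have key : ∀ x y : V × V, kk N x y = (K x.1 y.1 * K x.2 y.2) /
      (Real.sqrt (K x.1 x.1 * K x.2 x.2) * Real.sqrt (K y.1 y.1 * K y.2 y.2)) := by
    intro x y
    unfold kk
    rw [hN, hN, div_mul_div_comm]
    congr 1
    rw [Real.sqrt_mul (hK _).le, Real.sqrt_mul (hK _).le, Real.sqrt_mul (hK _).le,
      Real.sqrt_mul (hK _).le]
    ring
  rw [key, key, e1, e2, e3]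

open Classical in
theorem sufficiency (hA : St_A) (hB : St_B) (hC : St_C) (hE : St_E) (hG : St_G) (hI : St_I)
    (hJ : St_J) (hL : St_L) (V : Type) [Fintype V] (X : SimpleGraph V)
    (hp : (Fintype.card V).Prime) (h3 : 3 ≤ Fintype.card V) (h1 : X.Connected)
    (h2 : ¬ X.Colorable 2) (ht : TwinFree X) (hq : NoQuantumSymmetry X) :
    NoQuantumSymmetry (dir X X) := by
  intro A _ u hu hc x y z w
  have hne : Nonempty V := h1.nonempty
  have h0 := qiso_of_magic (dir X X) u hu (by convert hc)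
  obtain ⟨m, hm⟩ := hA V X h1 h2
  have hker := hB V X h1 ht m hm
  obtain ⟨N, hN⟩ : ∃ N : V → V → ℝ, N = (fun a b => (X.adjMatrix ℝ ^ (2 * m)) a b /
      Real.sqrt ((X.adjMatrix ℝ ^ (2 * m)) a a * (X.adjMatrix ℝ ^ (2 * m)) b b)) := ⟨_, rfl⟩
  rw [← hN] at hker
  have hpos : ∀ a, 0 < (X.adjMatrix ℝ ^ (2 * m)) a a := by
    intro a
    have h := hker.pos a a
    rw [hN] at h
    simp only at h
    by_contra hle
    push Not at hle
    have : (X.adjMatrix ℝ ^ (2 * m)) a a /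
        Real.sqrt ((X.adjMatrix ℝ ^ (2 * m)) a a * (X.adjMatrix ℝ ^ (2 * m)) a a) ≤ 0 :=
      div_nonpos_of_nonpos_of_nonneg hle (Real.sqrt_nonneg _)
    linarith
  have hP := ker_pres X N (fun a b => u a b) h0 (fun a b => (X.adjMatrix ℝ ^ (2 * m)) a b) hpos
    (fun a b => by rw [hN]) (hJ V X A (fun a b => u a b) h0 (2 * m))
  obtain ⟨hk2, hS⟩ := hE V N hker
  have hQ := hL (V × V) (dir X X) (kk N) A (fun a b => u a b) h0 hk2 hP
  rw [hS] at hQ
  obtain ⟨i1, i2⟩ := hI V (SG N) hp h3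
  have hadj : ∃ a b, X.Adj a b := by
    by_contra hno
    push Not at hno
    obtain ⟨a⟩ := hne
    obtain ⟨b, hb⟩ := Fintype.exists_ne_of_one_lt_card (by omega : 1 < Fintype.card V) a
    exact hb ((ht a b (fun z => ⟨fun h => absurd h (hno _ _), fun h => absurd h (hno _ _)⟩)).symm)
  exact hG V X (SG N) (hC V N hker) (by omega) i1 i2 hadj hq A (fun a b => u a b) hQ h0 x y z w

theorem main (hA : St_A) (hB : St_B) (hC : St_C) (hE : St_E) (hG : St_G) (hH : St_H) (hI : St_I)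
    (hJ : St_J) (hL : St_L) (V : Type) [Fintype V] (X : SimpleGraph V)
    (hp : (Fintype.card V).Prime) (h3 : 3 ≤ Fintype.card V) :
    NoQuantumSymmetry (dir X X) ↔
      X.Connected ∧ ¬ X.Colorable 2 ∧ TwinFree X ∧ NoQuantumSymmetry X :=
  ⟨hH V X h3, fun h => sufficiency hA hB hC hE hG hI hJ hL V X hp h3 h.1 h.2.1 h.2.2.1 h.2.2.2⟩

end Pool.Agent.H767R3.DS
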