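import Pool.Agent.H767R3.DS.Q

set_option autoImplicit false

namespace Pool.Agent.H767R3.DS

open Pool.Agent.H741.QS

open Classical in
/-- `x` on `C`, `y` outside of `C` -/
noncomputable def mix {J : Type} {P : J → Type} (C : Set J) (x y : ∀ k, P k) : ∀ k, P k :=
  fun k => if k ∈ C then x k else y k

/-- the relation `R` splits along `C` and its complement -/
def Spl {J : Type} {P : J → Type} (R : (∀ k, P k) → (∀ k, P k) → Prop) (C : Set J) : Prop :=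
  ∀ a b a' b', R a b → R a' b' → R (mix C a a') (mix C b b')

/-- the direct square in coordinates -/
def R2 {ι : Type} {P : ι → Type} (X : SimpleGraph (∀ i, P i)) :
    SimpleGraph (∀ k : ι × Bool, P k.1) where
  Adj a b := X.Adj (fun i => a (i, false)) (fun i => b (i, false)) ∧
    X.Adj (fun i => a (i, true)) (fun i => b (i, true))
  symm := ⟨fun _ _ h => ⟨h.1.symm, h.2.symm⟩⟩
  loopless := ⟨fun _ h => X.loopless.irrefl _ h.1⟩

/-- U: the permutation of the coordinates on a central projection respects splittings -/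
def St_U : Prop := ∀ (J : Type) [Fintype J] [DecidableEq J] (P : J → Type) [∀ k, Fintype (P k)]
  (G : ∀ k, SimpleGraph (P k)), (∀ k, (G k).Connected) → ∀ (A : Type) [CStarAlgebra A]
  (u : (∀ k, P k) → (∀ k, P k) → A) (H : SimpleGraph (∀ k, P k)),
  QIso (boxPi G) (boxPi G) u → QIso H H u → ∀ (e : A), e ≠ 0 → star e = e → e * e = e →
  (∀ a w, e * u a w = u a w * e) → ∀ (σ : J → J), Function.Bijective σ →
  (∀ k a b w v, DirAdj G k a b → ¬ DirAdj G (σ k) w v → u a w * u b v * e = 0) →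
  ∀ C : Set J, Spl H.Adj C → Spl H.Adj (σ ⁻¹' C)

/-- Z: selection compatible with a Boolean algebra of sets -/
def St_Z : Prop := ∀ (ι : Type) [Fintype ι] [DecidableEq ι] (σ : Equiv.Perm (ι × Bool))
  (𝓑 : Set (Set ι)), Set.univ ∈ 𝓑 → (∀ C ∈ 𝓑, Cᶜ ∈ 𝓑) → (∀ C ∈ 𝓑, ∀ D ∈ 𝓑, C ∩ D ∈ 𝓑) →
  (∀ C : Set (ι × Bool), {i | (i, false) ∈ C} ∈ 𝓑 → {i | (i, true) ∈ C} ∈ 𝓑 →
    {i | σ (i, false) ∈ C} ∈ 𝓑 ∧ {i | σ (i, true) ∈ C} ∈ 𝓑) →
  ∃ κ κ' : ι → Bool, Function.Bijective (fun i => (σ (i, κ i)).1) ∧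
    Function.Bijective (fun i => (σ (i, !κ i)).1) ∧
    (∀ i, (σ (i, κ i)).2 = κ' (σ (i, κ i)).1) ∧ (∀ i, (σ (i, !κ i)).2 = !κ' (σ (i, !κ i)).1) ∧
    {i | κ i = false} ∈ 𝓑 ∧ {i | κ' i = false} ∈ 𝓑

/-- Y: splittings of the square -/
def St_Y : Prop := ∀ (ι : Type) (P : ι → Type) (X : SimpleGraph (∀ i, P i)),
  Spl X.Adj Set.univ ∧ (∀ C, Spl X.Adj C → Spl X.Adj Cᶜ) ∧
  (∀ C D, Spl X.Adj C → Spl X.Adj D → Spl X.Adj (C ∩ D)) ∧
  ((∃ a b, X.Adj a b) → ∀ C : Set (ι × Bool), Spl (R2 X).Adj C ↔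
    (Spl X.Adj {i | (i, false) ∈ C} ∧ Spl X.Adj {i | (i, true) ∈ C}))

/-- V: rearranging the two copies -/
def St_V : Prop := ∀ (ι : Type) (P : ι → Type) (X : SimpleGraph (∀ i, P i)) (κ : ι → Bool),
  Spl X.Adj {i | κ i = false} → ∀ a b : ∀ k : ι × Bool, P k.1,
    ((R2 X).Adj a b ↔ X.Adj (fun i => a (i, κ i)) (fun i => b (i, κ i)) ∧
      X.Adj (fun i => a (i, !κ i)) (fun i => b (i, !κ i)))

/-- W: assembly in the general case -/
def St_W : Prop := ∀ (ι : Type) [Fintype ι] [DecidableEq ι] (P : ι → Type) [∀ i, Fintype (P i)]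
  (G : ∀ i, SimpleGraph (P i)), (∀ i, (G i).Connected) → (∀ i, 2 ≤ Fintype.card (P i)) →
  (∀ i, PrimeGraph (G i)) → (∀ i, NoK2 (G i)) → ∀ (X : SimpleGraph (∀ i, P i)),
  (∃ a b, X.Adj a b) → NoQuantumSymmetry X → ∀ (A : Type) [CStarAlgebra A]
  (u : ((∀ i, P i) × (∀ i, P i)) → ((∀ i, P i) × (∀ i, P i)) → A),
    QIso (boxPi G □ boxPi G) (boxPi G □ boxPi G) u → QIso (dir X X) (dir X X) u →
    ∀ x y z w, u x y * u z w = u z w * u x y

end Pool.Agent.H767R3.DS
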