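import Pool.Agent.H767R3.DS.Main
import Pool.Agent.H767R3.DS.W

set_option autoImplicit false

namespace Pool.Agent.H767R3.DS

open Pool.Agent.H741.QS

/-- the direct product of isomorphic graphs -/
def dirCongr {A A' B B' : Type} {GA : SimpleGraph A} {GA' : SimpleGraph A'} {GB : SimpleGraph B}
    {GB' : SimpleGraph B'} (e : GA ≃g GA') (f : GB ≃g GB') : dir GA GB ≃g dir GA' GB' where
  toEquiv := Equiv.prodCongr e.toEquiv f.toEquiv
  map_rel_iff' := by
    rintro ⟨a, b⟩ ⟨a', b'⟩
    have h1 : GA'.Adj (e.toEquiv a) (e.toEquiv a') ↔ GA.Adj a a' := e.map_rel_iff'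
    have h2 : GB'.Adj (f.toEquiv b) (f.toEquiv b') ↔ GB.Adj b b' := f.map_rel_iff'
    exact and_congr h1 h2

theorem assembly (hW : St_W) (V : Type) [Fintype V] [Nonempty V] (X S : SimpleGraph V)
    (hS : S.Connected) (hK : NoK2 S) (hadj : ∃ a b, X.Adj a b) (hq : NoQuantumSymmetry X)
    (A : Type) [CStarAlgebra A] (u : (V × V) → (V × V) → A)
    (h1 : QIso (S □ S) (S □ S) u) (h2 : QIso (dir X X) (dir X X) u) :
    ∀ x y z w, u x y * u z w = u z w * u x y := by
  classical
  obtain ⟨ι, i1, i2, P, i3, G, hG, ⟨e⟩⟩ := exists_prime_factorization S hS hK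
  let X' : SimpleGraph (∀ i, P i) := X.comap e.symm
  let f : X' ≃g X :=
    { toEquiv := e.symm.toEquiv
      map_rel_iff' := by
        intro a b
        rfl }
  have hX' : NoQuantumSymmetry X' := noqs_of_iso f.symm hq
  have k1 := h1.transport (prodCongr e.symm e.symm) (prodCongr e.symm e.symm)
  have k2 := h2.transport (dirCongr f f) (dirCongr f f)
  have hfe : ∀ a : (∀ i, P i) × (∀ i, P i), dirCongr f f a = prodCongr e.symm e.symm a :=
    fun a => rfl
  have hadj' : ∃ a b, X'.Adj a b := by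
    obtain ⟨a, b, hab⟩ := hadj
    refine ⟨e a, e b, ?_⟩
    show X.Adj (e.symm (e a)) (e.symm (e b))
    rw [e.symm_apply_apply, e.symm_apply_apply]
    exact hab
  have k3 := hW ι P G (fun i => (hG i).1) (fun i => (hG i).2.1) (fun i => (hG i).2.2.1)
    (fun i => (hG i).2.2.2) X' hadj' hX' A
    (fun a w => u (prodCongr e.symm e.symm a) (prodCongr e.symm e.symm w)) k1 k2
  intro x y z w
  have k4 := k3 (prodCongr e e x) (prodCongr e e y) (prodCongr e e z) (prodCongr e e w)
  have hinv : ∀ a : V × V, prodCongr e.symm e.symm (prodCongr e e a) = a := by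
    rintro ⟨a, b⟩
    show (e.symm (e a), e.symm (e b)) = (a, b)
    rw [e.symm_apply_apply, e.symm_apply_apply]
  simpa only [hinv] using k4

open Classical in
/-- the normalised kernel of `A ^ (2 * m)` -/
noncomputable def nk {V : Type} [Fintype V] (X : SimpleGraph V) (m : ℕ) : V → V → ℝ :=
  fun a b => (X.adjMatrix ℝ ^ (2 * m)) a b /
      Real.sqrt ((X.adjMatrix ℝ ^ (2 * m)) a a * (X.adjMatrix ℝ ^ (2 * m)) b b)

open Classical in
theorem suffCore (hB : St_B) (hC : St_C) (hE : St_E) (hW : St_W)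
    (hJ : St_J) (hL : St_L) (V : Type) [Fintype V] (X : SimpleGraph V) (m : ℕ)
    (hm : ∀ a b, 0 < (X.adjMatrix ℝ ^ m) a b) (hK : NoK2 (SG (nk X m)))
    (h3 : Fintype.card V ≠ 1) (h1 : X.Connected) (ht : TwinFree X) (hq : NoQuantumSymmetry X) :
    NoQuantumSymmetry (dir X X) := by
  intro A _ u hu hc x y z w
  have hne : Nonempty V := h1.nonempty
  have h0 := qiso_of_magic (dir X X) u hu (by convert hc)
  have hker := hB V X h1 ht m hm
  obtain ⟨N, hN⟩ : ∃ N : V → V → ℝ, N = (fun a b => (X.adjMatrix ℝ ^ (2 * m)) a b /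
      Real.sqrt ((X.adjMatrix ℝ ^ (2 * m)) a a * (X.adjMatrix ℝ ^ (2 * m)) b b)) := ⟨_, rfl⟩
  rw [← hN] at hker
  have hpos : ∀ a, 0 < (X.adjMatrix ℝ ^ (2 * m)) a a := by
    intro a
    have h := hker.pos a a
    rw [hN] at h
    simp only at h
    by_contra hle
    push Not at hle
    have : (X.adjMatrix ℝ ^ (2 * m)) a a /
        Real.sqrt ((X.adjMatrix ℝ ^ (2 * m)) a a * (X.adjMatrix ℝ ^ (2 * m)) a a) ≤ 0 :=
      div_nonpos_of_nonpos_of_nonneg hle (Real.sqrt_nonneg _)
    linarith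
  have hP := ker_pres X N (fun a b => u a b) h0 (fun a b => (X.adjMatrix ℝ ^ (2 * m)) a b) hpos
    (fun a b => by rw [hN]) (hJ V X A (fun a b => u a b) h0 (2 * m))
  obtain ⟨hk2, hS⟩ := hE V N hker
  have hQ := hL (V × V) (dir X X) (kk N) A (fun a b => u a b) h0 hk2 hP
  rw [hS] at hQ
  have hK' : NoK2 (SG N) := by rw [hN]; exact hK
  have hadj : ∃ a b, X.Adj a b := by
    by_contra hno
    push Not at hno
    obtain ⟨a⟩ := hne
    have hc1 : 1 < Fintype.card V := by
      have : 0 < Fintype.card V := Fintype.card_pos_iff.2 ⟨a⟩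
      omega
    obtain ⟨b, hb⟩ := Fintype.exists_ne_of_one_lt_card hc1 a
    exact hb ((ht a b (fun z => ⟨fun h => absurd h (hno _ _), fun h => absurd h (hno _ _)⟩)).symm)
  exact assembly hW V X (SG N) (hC V N hker) hK' hadj hq A (fun a b => u a b) hQ h0 x y z w

theorem noK2_of_odd {V : Type} [Fintype V] (S : SimpleGraph V) (hodd : Odd (Fintype.card V)) :
    NoK2 S := by
  intro W _ Y
  refine ⟨fun e => ?_⟩
  have hcard := Fintype.card_congr e.toEquiv
  rw [Fintype.card_prod, Fintype.card_bool] at hcard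
  rw [hcard] at hodd
  exact (Nat.not_odd_iff_even.2 (even_two_mul _)) hodd

open Classical in
theorem sufficiency2 (hA : St_A) (hB : St_B) (hC : St_C) (hE : St_E) (hW : St_W)
    (hJ : St_J) (hL : St_L) (V : Type) [Fintype V] (X : SimpleGraph V)
    (hodd : Odd (Fintype.card V)) (h3 : Fintype.card V ≠ 1) (h1 : X.Connected)
    (h2 : ¬ X.Colorable 2) (ht : TwinFree X) (hq : NoQuantumSymmetry X) :
    NoQuantumSymmetry (dir X X) := by
  obtain ⟨m, hm⟩ := hA V X h1 h2
  exact suffCore hB hC hE hW hJ hL V X m hm (noK2_of_odd _ hodd) h3 h1 ht hq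

theorem one_noqs (V : Type) [Fintype V] (X : SimpleGraph V) (h : Fintype.card V = 1) :
    NoQuantumSymmetry (dir X X) := by
  intro A _ u _ _ x y z w
  have : Subsingleton V := Fintype.card_le_one_iff_subsingleton.1 h.le
  rw [Subsingleton.elim x z, Subsingleton.elim y w]

theorem main2 (hA : St_A) (hB : St_B) (hC : St_C) (hE : St_E) (hW : St_W) (hH : St_H)
    (hJ : St_J) (hL : St_L) (V : Type) [Fintype V] (X : SimpleGraph V)
    (hodd : Odd (Fintype.card V)) :
    NoQuantumSymmetry (dir X X) ↔ (Fintype.card V = 1 ∨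
      (X.Connected ∧ ¬ X.Colorable 2 ∧ TwinFree X ∧ NoQuantumSymmetry X)) := by
  by_cases h1 : Fintype.card V = 1
  · exact ⟨fun _ => Or.inl h1, fun _ => one_noqs V X h1⟩
  · have h3 : 3 ≤ Fintype.card V := by
      obtain ⟨k, hk⟩ := hodd
      omega
    constructor
    · intro h
      exact Or.inr (hH V X h3 h)
    · rintro (h | h)
      · exact absurd h h1
      · exact sufficiency2 hA hB hC hE hW hJ hL V X hodd h1 h.1 h.2.1 h.2.2.1 h.2.2.2

end Pool.Agent.H767R3.DS
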