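import Pool.Agent.Helper741.QSym.Final
import Pool.Agent.H767R3.DS.K

set_option autoImplicit false

namespace Pool.Agent.H767R3.DS

open Pool.Agent.H741.QS

/-- F: the end lemma for the direct square -/
def St_F : Prop := ∀ (V : Type) [Fintype V] [Nonempty V] (X S : SimpleGraph V), S.Connected →
  (∃ a b, X.Adj a b) → NoQuantumSymmetry X → ∀ (A : Type) [CStarAlgebra A]
    (u : (V × V) → (V × V) → A), QIso (S □ S) (S □ S) u → QIso (dir X X) (dir X X) u →
    ∀ (e : A), star e = e → e * e = e → (∀ a w, e * u a w = u a w * e) →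
    (∀ a b w v : V × V, S.Adj a.1 b.1 → a.2 = b.2 → ¬ (S.Adj w.1 v.1 ∧ w.2 = v.2) →
      u a w * u b v * e = 0) →
    (∀ a b w v : V × V, a.1 = b.1 → S.Adj a.2 b.2 → ¬ (w.1 = v.1 ∧ S.Adj w.2 v.2) →
      u a w * u b v * e = 0) →
    ∀ (a w b v : V × V), e * (u a w * u b v) = e * (u b v * u a w)

/-- G: assembly for a prime graph `S` -/
def St_G : Prop := ∀ (V : Type) [Fintype V] [Nonempty V] (X S : SimpleGraph V), S.Connected →
  2 ≤ Fintype.card V → PrimeGraph S → NoK2 S → (∃ a b, X.Adj a b) → NoQuantumSymmetry X →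
  ∀ (A : Type) [CStarAlgebra A] (u : (V × V) → (V × V) → A),
    QIso (S □ S) (S □ S) u → QIso (dir X X) (dir X X) u →
    ∀ x y z w, u x y * u z w = u z w * u x y

/-- H: necessity -/
def St_H : Prop := ∀ (V : Type) [Fintype V] (X : SimpleGraph V), 3 ≤ Fintype.card V →
  NoQuantumSymmetry (dir X X) →
  X.Connected ∧ ¬ X.Colorable 2 ∧ TwinFree X ∧ NoQuantumSymmetry X

/-- I: a graph with a prime number of vertices is a prime graph -/
def St_I : Prop := ∀ (V : Type) [Fintype V] (S : SimpleGraph V), (Fintype.card V).Prime →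
  3 ≤ Fintype.card V → PrimeGraph S ∧ NoK2 S

open Classical in
/-- J: powers are preserved -/
def St_J : Prop := ∀ (V : Type) [Fintype V] (X : SimpleGraph V) (A : Type) [CStarAlgebra A]
  (u : (V × V) → (V × V) → A), QIso (dir X X) (dir X X) u → ∀ m : ℕ,
  QIso.Pres u (fun a b => (X.adjMatrix ℝ ^ m) a.1 b.1 * (X.adjMatrix ℝ ^ m) a.2 b.2)
    (fun a b => (X.adjMatrix ℝ ^ m) a.1 b.1 * (X.adjMatrix ℝ ^ m) a.2 b.2)

/-- L: from kernels to graphs -/
def St_L : Prop := ∀ (W : Type) [Fintype W] (X : SimpleGraph W) (M : W → W → ℝ) (A : Type)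
  [CStarAlgebra A] (u : W → W → A), QIso X X u → Ker M → QIso.Pres u M M →
  QIso (SG M) (SG M) u

end Pool.Agent.H767R3.DS
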