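import Pool.Agent.H767R3.DS.W
import Pool.Agent.Helper741.QSym.Sel

set_option autoImplicit false

namespace Pool.Agent.H767R3.DS

open Pool.Agent.H741.QS

namespace Zaux

/-- indistinguishable by the sets of the algebra -/
def rel {ι : Type} (𝓑 : Set (Set ι)) : Setoid ι where
  r i j := ∀ C ∈ 𝓑, i ∈ C ↔ j ∈ C
  iseqv := ⟨fun _ _ _ => Iff.rfl, fun h C hC => (h C hC).symm,
    fun h h' C hC => (h C hC).trans (h' C hC)⟩

theorem sep {ι : Type} (𝓑 : Set (Set ι)) (hc : ∀ C ∈ 𝓑, Cᶜ ∈ 𝓑) {i j : ι}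
    (h : ¬ (∀ C ∈ 𝓑, i ∈ C ↔ j ∈ C)) : ∃ C ∈ 𝓑, i ∈ C ∧ j ∉ C := by
  obtain ⟨C, hC⟩ := not_forall.1 h
  obtain ⟨hC1, hC2⟩ := Classical.not_imp.1 hC
  by_cases hi : i ∈ C
  · exact ⟨C, hC1, hi, fun hj => hC2 ⟨fun _ => hj, fun _ => hi⟩⟩
  · refine ⟨Cᶜ, hc C hC1, hi, fun hj => hj ?_⟩
    by_contra hj'
    exact hC2 ⟨fun h => absurd h hi, fun h => absurd h hj'⟩

theorem mem_of_sat {ι : Type} [Fintype ι] (𝓑 : Set (Set ι)) (hu : Set.univ ∈ 𝓑)
    (hc : ∀ C ∈ 𝓑, Cᶜ ∈ 𝓑) (hi : ∀ C ∈ 𝓑, ∀ D ∈ 𝓑, C ∩ D ∈ 𝓑) (K : Set ι)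
    (hK : ∀ i j, (∀ C ∈ 𝓑, i ∈ C ↔ j ∈ C) → i ∈ K → j ∈ K) : K ∈ 𝓑 := by
  classical
  have h1 : ∀ i ∈ K, ∀ t : Finset ι, (∀ j ∈ t, j ∉ K) → ∃ D ∈ 𝓑, i ∈ D ∧ ∀ j ∈ t, j ∉ D := by
    intro i hiK t
    induction t using Finset.induction_on with
    | empty => intro _; exact ⟨Set.univ, hu, trivial, by simp⟩
    | insert a t ha ih =>
      intro ht
      obtain ⟨D, hD, hiD, hDt⟩ := ih (fun j hj => ht j (Finset.mem_insert_of_mem hj))
      obtain ⟨C, hC, hiC, haC⟩ := sep 𝓑 hc (i := i) (j := a)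
        (fun h => ht a (Finset.mem_insert_self a t) (hK i a h hiK))
      refine ⟨C ∩ D, hi C hC D hD, ⟨hiC, hiD⟩, ?_⟩
      intro j hj hjCD
      rcases Finset.mem_insert.1 hj with rfl | hj
      · exact haC hjCD.1
      · exact hDt j hj hjCD.2
  have h2 : ∀ s : Finset ι, (∀ i ∈ s, i ∈ K) →
      ∃ D ∈ 𝓑, (∀ i ∈ s, i ∈ D) ∧ ∀ j, j ∉ K → j ∉ D := by
    intro s
    induction s using Finset.induction_on with
    | empty => intro _; exact ⟨Set.univᶜ, hc _ hu, by simp, by simp⟩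
    | insert a s ha ih =>
      intro hs
      obtain ⟨D, hD, hsD, hD'⟩ := ih (fun j hj => hs j (Finset.mem_insert_of_mem hj))
      obtain ⟨C, hC, haC, hC'⟩ := h1 a (hs a (Finset.mem_insert_self a s))
        (Finset.univ.filter (fun j => j ∉ K)) (by simp)
      refine ⟨(Cᶜ ∩ Dᶜ)ᶜ, hc _ (hi _ (hc _ hC) _ (hc _ hD)), ?_, ?_⟩
      · intro i his hh
        rcases Finset.mem_insert.1 his with rfl | his
        · exact hh.1 haC
        · exact hh.2 (hsD i his)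
      · intro j hj hh
        exact hh ⟨hC' j (by simpa using hj), hD' j hj⟩
  obtain ⟨D, hD, hD1, hD2⟩ := h2 (Finset.univ.filter (fun j => j ∈ K)) (by simp)
  have hKD : K = D := by
    ext i
    constructor
    · intro h
      exact hD1 i (by simpa using h)
    · intro h
      by_contra hh
      exact hD2 i hh h
  rw [hKD]
  exact hD

end Zaux

theorem t_Z : St_Z := by
  classical
  intro ι _ _ σ 𝓑 hu hc hi hσ
  have he : (∅ : Set ι) ∈ 𝓑 := by
    have h := hc _ hu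
    rwa [Set.compl_univ] at h
  have hresp : ∀ (i j : ι) (b : Bool), (∀ C ∈ 𝓑, i ∈ C ↔ j ∈ C) →
      (∀ C ∈ 𝓑, (σ (i, b)).1 ∈ C ↔ (σ (j, b)).1 ∈ C) ∧ (σ (i, b)).2 = (σ (j, b)).2 := by
    intro i j b hij
    have key : ∀ C : Set (ι × Bool), {i | (i, false) ∈ C} ∈ 𝓑 → {i | (i, true) ∈ C} ∈ 𝓑 →
        (σ (i, b) ∈ C ↔ σ (j, b) ∈ C) := by
      intro C h1 h2
      obtain ⟨h3, h4⟩ := hσ C h1 h2
      cases b
      · exact hij _ h3
      · exact hij _ h4
    refine ⟨fun C hC => ?_, ?_⟩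
    · exact key {k | k.1 ∈ C} (by simpa using hC) (by simpa using hC)
    · have h := key {k | k.2 = true} (by simpa using he) (by simpa using hu)
      simp only [Set.mem_setOf_eq] at h
      cases h5 : (σ (i, b)).2 <;> cases h6 : (σ (j, b)).2 <;> simp_all
  let q : ι → Quotient (Zaux.rel 𝓑) := Quotient.mk (Zaux.rel 𝓑)
  have hq : ∀ i j, q i = q j ↔ (∀ C ∈ 𝓑, i ∈ C ↔ j ∈ C) := by
    intro i j
    exact Quotient.eq (r := Zaux.rel 𝓑)
  let sb : Quotient (Zaux.rel 𝓑) × Bool → Quotient (Zaux.rel 𝓑) × Bool := fun p =>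
    Quotient.lift (fun i => (q (σ (i, p.2)).1, (σ (i, p.2)).2)) (by
      intro i j hij
      have h := hresp i j p.2 hij
      exact Prod.ext ((hq _ _).2 h.1) h.2) p.1
  have sb_mk : ∀ i b, sb (q i, b) = (q (σ (i, b)).1, (σ (i, b)).2) := fun _ _ => rfl
  have hsurj : Function.Surjective sb := by
    rintro ⟨x, c⟩
    obtain ⟨j, rfl⟩ := Quotient.exists_rep x
    refine ⟨(q (σ.symm (j, c)).1, (σ.symm (j, c)).2), ?_⟩
    rw [sb_mk, Prod.mk.eta, Equiv.apply_symm_apply]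
  have hbij : Function.Bijective sb := Finite.surjective_iff_bijective.1 hsurj
  obtain ⟨κ0, hκ1, hκ2⟩ := exists_selection (Equiv.ofBijective sb hbij)
  have hκ1' : ∀ x y, (sb (x, κ0 x)).1 = (sb (y, κ0 y)).1 → x = y := fun x y h => hκ1.1 h
  have hκ2' : ∀ x y, (sb (x, !κ0 x)).1 = (sb (y, !κ0 y)).1 → x = y := fun x y h => hκ2.1 h
  -- the first selection
  have hF : Function.Bijective (fun i => (σ (i, κ0 (q i))).1) := by
    refine Finite.injective_iff_bijective.1 ?_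
    intro i j hij
    have h1 : q i = q j := by
      apply hκ1'
      rw [sb_mk, sb_mk]
      exact congrArg q hij
    have h2 : (σ (i, κ0 (q i))).2 = (σ (j, κ0 (q j))).2 := by
      have h3 := congrArg Prod.snd (congrArg sb (show (q i, κ0 (q i)) = (q j, κ0 (q j)) by rw [h1]))
      rwa [sb_mk, sb_mk] at h3
    exact congrArg Prod.fst (σ.injective (Prod.ext hij h2))
  have hF' : Function.Bijective (fun i => (σ (i, !κ0 (q i))).1) := by
    refine Finite.injective_iff_bijective.1 ?_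
    intro i j hij
    have h1 : q i = q j := by
      apply hκ2'
      rw [sb_mk, sb_mk]
      exact congrArg q hij
    have h2 : (σ (i, !κ0 (q i))).2 = (σ (j, !κ0 (q j))).2 := by
      have h3 := congrArg Prod.snd
        (congrArg sb (show (q i, !κ0 (q i)) = (q j, !κ0 (q j)) by rw [h1]))
      rwa [sb_mk, sb_mk] at h3
    exact congrArg Prod.fst (σ.injective (Prod.ext hij h2))
  have hex : ∀ j, ∃ i, (σ (i, κ0 (q i))).1 = j := fun j => hF.2 j
  choose g hg using hex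
  have hgF : ∀ i, g (σ (i, κ0 (q i))).1 = i := fun i => hF.1 (hg _)
  refine ⟨fun i => κ0 (q i), fun j => (σ (g j, κ0 (q (g j)))).2, hF, hF', ?_, ?_, ?_, ?_⟩
  · intro i
    simp only [hgF]
  · intro i
    simp only
    have hne : (σ (i, !κ0 (q i))).2 ≠
        (σ (g (σ (i, !κ0 (q i))).1, κ0 (q (g (σ (i, !κ0 (q i))).1)))).2 := by
      intro h
      have h1 : σ (i, !κ0 (q i)) =
          σ (g (σ (i, !κ0 (q i))).1, κ0 (q (g (σ (i, !κ0 (q i))).1))) :=
        Prod.ext (hg _).symm h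
      have h2 := σ.injective h1
      have h3 : i = g (σ (i, !κ0 (q i))).1 := congrArg Prod.fst h2
      have h4 : (!κ0 (q i)) = κ0 (q (g (σ (i, !κ0 (q i))).1)) := congrArg Prod.snd h2
      rw [← h3] at h4
      cases h5 : κ0 (q i) <;> simp [h5] at h4
    revert hne
    generalize (σ (i, !κ0 (q i))).2 = x
    generalize (σ (g (σ (i, !κ0 (q i))).1, κ0 (q (g (σ (i, !κ0 (q i))).1)))).2 = y
    cases x <;> cases y <;> simp
  · refine Zaux.mem_of_sat 𝓑 hu hc hi _ ?_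
    intro i j hij h
    have h1 : q i = q j := (hq i j).2 hij
    simp only [Set.mem_setOf_eq] at h ⊢
    rw [← h1]
    exact h
  · refine Zaux.mem_of_sat 𝓑 hu hc hi _ ?_
    intro i j hij h
    have h1 : q i = q j := (hq i j).2 hij
    simp only [Set.mem_setOf_eq] at h ⊢
    have h2 : q (g i) = q (g j) := by
      apply hκ1'
      rw [sb_mk, sb_mk]
      simp only [hg]
      exact h1
    have h3 : (σ (g i, κ0 (q (g i)))).2 = (σ (g j, κ0 (q (g j)))).2 := by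
      have h4 := congrArg Prod.snd
        (congrArg sb (show (q (g i), κ0 (q (g i))) = (q (g j), κ0 (q (g j))) by rw [h2]))
      rwa [sb_mk, sb_mk] at h4
    rw [← h3]
    exact h

end Pool.Agent.H767R3.DS
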